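import Mathlib

/-! Blocks, polymers, labelled polymer sums and the local sums of one reblocking. -/

open scoped Classical
open Finset

noncomputable section
namespace Pool.Agent.Lib.MP_9cc147_pr.Cx

abbrev P := ℤ × ℤ
abbrev Lab := Fin 3

def box (m : ℕ) : Finset P := Ico (0 : ℤ) m ×ˢ Ico (0 : ℤ) m
/-- sup distance at most `k` -/
def nr (k : ℕ) (a b : P) : Prop := |a.1 - b.1| ≤ k ∧ |a.2 - b.2| ≤ k
def par (L : ℕ) (a : P) : P := (a.1 / L, a.2 / L)
def cell (L : ℕ) (B : P) : Finset P :=
  Ico (B.1 * L) ((B.1 + 1) * L) ×ˢ Ico (B.2 * L) ((B.2 + 1) * L)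
def under (L : ℕ) (U : Finset P) : Finset P := U.biUnion (cell L)
def lnk (Y : Finset P) (a b : P) : Prop := a ∈ Y ∧ b ∈ Y ∧ nr 1 a b
def comp (Y : Finset P) (a : P) : Finset P := Y.filter (Relation.ReflTransGen (lnk Y) a)
def comps (Y : Finset P) : Finset (Finset P) := Y.image (comp Y)
def Conn (X : Finset P) : Prop :=
  X.Nonempty ∧ ∀ a ∈ X, ∀ b ∈ X, Relation.ReflTransGen (lnk X) a b
/-- the points of `R` within distance `k` of `X` -/
def near (k : ℕ) (R X : Finset P) : Finset P := R.filter fun b => ∃ a ∈ X, nr k a b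
def bdry (R X : Finset P) : Finset P := near 1 R X \ X

/-- functions with values in `V` on `R` and equal to `d` off `R` -/
def cfgs {ι S : Type} (V : Finset S) (d : S) (R : Finset ι) : Finset (ι → S) :=
  (R.pi fun _ => V).image fun f x => if h : x ∈ R then f x h else d

/-- `none` = in a polymer of the second class, `(s, false)` = free, `(s, true)` = in a neutral
polymer of phase `s` -/
abbrev St := Option (Lab × Bool)
/-- fine states: 0 free, 1 marked, 2 in a polymer, 3 in a polymer and flagged -/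
abbrev Sf := Option (Lab × Fin 4)

def lab {α : Type} (x : Option (Lab × α)) : Option Lab := x.map Prod.fst
def okS (x y : St) : Prop :=
  (∀ s t, lab x = some s → lab y = some t → s = t) ∧ (∀ s, x = some (s, true) → y ≠ none)
def valid (R : Finset P) (c : P → St) : Prop := ∀ a ∈ R, ∀ b ∈ R, nr 1 a b → okS (c a) (c b)
def pol (R : Finset P) (c : P → St) (s : Lab) : Finset P := R.filter fun b => c b = some (s, true)
def fre (R : Finset P) (c : P → St) (s : Lab) : Finset P := R.filter fun b => c b = some (s, false)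
def bad (R : Finset P) (c : P → St) : Finset P := R.filter fun b => c b = none
def sig (R : Finset P) (c : P → St) (X : Finset P) : P → Option Lab :=
  fun b => if b ∈ bdry R X then lab (c b) else none
def cst (R X : Finset P) (s : Lab) : P → Option Lab :=
  fun b => if b ∈ bdry R X then some s else none
/-- the boundary data are constant on a nonempty boundary -/
def Neu (R X : Finset P) (σ : P → Option Lab) : Prop :=
  (bdry R X).Nonempty ∧ ∃ s, σ = cst R X s

/-- boundary data of a polymer of the second class -/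
def Nn (R X : Finset P) (σ : P → Option Lab) : Prop :=
  ¬ Neu R X σ ∧ ∀ b, b ∉ bdry R X → σ b = none

def Wsum (R : Finset P) (I : Lab → P → ℂ) (K : Lab → Finset P → ℂ)
    (N : Finset P → (P → Option Lab) → ℂ) : ℂ :=
  ∑ c ∈ (cfgs univ none R).filter (valid R),
    (∏ s, ∏ B ∈ fre R c s, I s B) * (∏ s, ∏ X ∈ comps (pol R c s), K s X) *
      ∏ X ∈ comps (bad R c), N X (sig R c X)

/-- the one phase sum -/
def W1 (R : Finset P) (I : P → ℂ) (K : Finset P → ℂ) : ℂ :=
  ∑ Y ∈ R.powerset, (∏ B ∈ R \ Y, I B) * ∏ X ∈ comps Y, K X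

/-- the part of `Wsum` with a polymer of the second class -/
def W2 (R : Finset P) (I : Lab → P → ℂ) (K : Lab → Finset P → ℂ)
    (N : Finset P → (P → Option Lab) → ℂ) : ℂ :=
  ∑ c ∈ (cfgs univ none R).filter (fun c => valid R c ∧ (bad R c).Nonempty),
    (∏ s, ∏ B ∈ fre R c s, I s B) * (∏ s, ∏ X ∈ comps (pol R c s), K s X) *
      ∏ X ∈ comps (bad R c), N X (sig R c X)

def red (c : P → Sf) : P → St := fun b => (c b).map fun x => (x.1, decide (2 ≤ x.2))
def kind (R : Finset P) (c : P → Sf) (i : Fin 4) : Finset P :=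
  R.filter fun b => ∃ s, c b = some (s, i)
/-- the fine region on which the local configurations of `U` live -/
def reg (L : ℕ) (D U : Finset P) : Finset P := under L (near 1 D U)
def img (L s0 : ℕ) (R : Finset P) (c : P → Sf) : Finset P :=
  (kind R c 1 ∪ kind R c 3 ∪ bad R (red c) ∪
    univ.biUnion fun s => ((comps (pol R (red c) s)).filter fun X => s0 < X.card).biUnion id).image
      (par L)
def fw (s0 : ℕ) (c : P → Sf) (X : Finset P) : ℂ :=
  if X.card ≤ s0 then (if (kind X c 3).card = 1 then (X.card : ℂ)⁻¹ else 0)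
  else (if (kind X c 3).card = 0 then 1 else 0)
def lw (L s0 : ℕ) (D U : Finset P) (T M : Lab → P → ℂ) (K : Lab → Finset P → ℂ)
    (N : Finset P → (P → Option Lab) → ℂ) (c : P → Sf) : ℂ :=
  (∏ s, ∏ B ∈ (under L U).filter (fun b => lab (c b) = some s), T s B) *
    (∏ s, ∏ B ∈ (reg L D U).filter (fun b => c b = some (s, 1)), M s B) *
    (∏ s, ∏ X ∈ comps (pol (reg L D U) (red c) s), fw s0 c X * K s X) *
    ∏ X ∈ comps (bad (reg L D U) (red c)), N X (sig (reg L D U) (red c) X)
def loc (L s0 : ℕ) (D U : Finset P) : Finset (P → Sf) :=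
  (cfgs univ none (reg L D U)).filter fun c =>
    valid (reg L D U) (red c) ∧ img L s0 (reg L D U) c = U
def loc0 (L s0 : ℕ) (D U : Finset P) (s : Lab) : Finset (P → Sf) :=
  (loc L s0 D U).filter fun c => ∀ b ∈ reg L D U, lab (c b) = some s
def loc1 (L s0 : ℕ) (D U : Finset P) (σ : P → Option Lab) : Finset (P → Sf) :=
  (loc L s0 D U).filter fun c => (bad (reg L D U) (red c)).Nonempty ∧
    ∀ b ∈ under L (bdry D U), lab (c b) = σ (par L b)
def L0 (L s0 : ℕ) (D U : Finset P) (T M : Lab → P → ℂ) (K : Lab → Finset P → ℂ) (s : Lab) : ℂ :=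
  ∑ c ∈ loc0 L s0 D U s, lw L s0 D U T M K (fun _ _ => 0) c
def L1 (L s0 : ℕ) (D U : Finset P) (T M : Lab → P → ℂ) (K : Lab → Finset P → ℂ)
    (N : Finset P → (P → Option Lab) → ℂ) (σ : P → Option Lab) : ℂ :=
  ∑ c ∈ loc1 L s0 D U σ, lw L s0 D U T M K N c

/-- symmetries of the square lattice: swap of the coordinates, then two sign changes -/
structure Sy where
  sw : Bool
  f1 : Bool
  f2 : Bool
/-- action on dual vertices -/
def vm (g : Sy) (c p : P) : P :=
  ((if g.f1 then -1 else 1) * (if g.sw then p.2 else p.1) + c.1,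
   (if g.f2 then -1 else 1) * (if g.sw then p.1 else p.2) + c.2)
/-- action on faces and on blocks (named by their lower left corner) -/
def fm (g : Sy) (c x : P) : P :=
  vm g c x - (if g.f1 then 1 else 0, if g.f2 then 1 else 0)
/-- action on the phases: the two checkerboard phases are exchanged by odd moves -/
def pm (g : Sy) (c : P) (s : Lab) : Lab :=
  if Even ((fm g c 0).1 + (fm g c 0).2) then s else Equiv.swap 1 2 s
/-- sides of the box touched by a block: 0 left, 1 top, 2 bottom, 3 right -/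
def sds (m : ℕ) (X : Finset P) : Finset (Fin 4) :=
  univ.filter fun i => ∃ B ∈ X, ![B.1 = 0, B.2 = m - 1, B.2 = 0, B.1 = m - 1] i
/-- touches both arcs (left or top, and bottom or right) -/
def spec (m : ℕ) (X : Finset P) : Prop :=
  (0 ∈ sds m X ∨ 1 ∈ sds m X) ∧ (2 ∈ sds m X ∨ 3 ∈ sds m X)
def corner (m : ℕ) (B : P) : Prop := (B.1 = 0 ∨ B.1 = m - 1) ∧ (B.2 = 0 ∨ B.2 = m - 1)
def ab (m : ℕ) (B : P) : Prop := B = (0, 0) ∨ B = ((m : ℤ) - 1, (m : ℤ) - 1)
def ncor (m : ℕ) (X : Finset P) : ℕ := (X.filter (corner m)).card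
/-- at distance at least `k` from all sides -/
def deep (k m : ℕ) (B : P) : Prop := (k : ℤ) ≤ B.1 ∧ B.1 + k < m ∧ (k : ℤ) ≤ B.2 ∧ B.2 + k < m
def smalls (R : Finset P) (B : P) : Finset (Finset P) :=
  R.powerset.filter fun X => Conn X ∧ B ∈ X ∧ X.card ≤ 4

end Pool.Agent.Lib.MP_9cc147_pr.Cx
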