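import Pool.Agent.Lib.MP_9cc147_pr.Cx.D0

/-! Fields on the dual lattice, norms, regulators, the noise and the harmonic background. -/

open scoped Classical
open Finset MeasureTheory ProbabilityTheory

noncomputable section
namespace Pool.Agent.Lib.MP_9cc147_pr.Cx

abbrev Fld := P → ℂ
def cf (θ : P → ℝ) : Fld := fun p => (θ p : ℂ)
/-- steps to the four neighbouring faces: east, north, west, south -/
def dir : Fin 4 → P := ![(1, 0), (0, 1), (-1, 0), (0, -1)]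
/-- corners of a face, counterclockwise; the side crossed by `dir d` joins `crn d` to `crn (d+1)` -/
def crn : Fin 4 → P := ![(1, 0), (1, 1), (0, 1), (0, 0)]
def dg {α : Type} [Sub α] (Θ : P → α) (x : P) (d : Fin 4) : α := Θ (x + crn (d + 1)) - Θ (x + crn d)
/-- bilinear energy of a set of faces -/
def En (Θ : Fld) (S : Finset P) : ℂ := ∑ x ∈ S, (1 / 2) * ∑ d, dg Θ x d ^ 2
def n1 (v : Fld) (x : P) : ℝ := (1 / 2) * ∑ d, ‖dg v x d‖ ^ 2
def n2 (v : Fld) (p : P) : ℝ :=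
  ‖v (p + (1, 0)) - 2 * v p + v (p - (1, 0))‖ ^ 2 + ‖v (p + (0, 1)) - 2 * v p + v (p - (0, 1))‖ ^ 2 +
    ‖v (p + (1, 1)) - v (p + (1, 0)) - v (p + (0, 1)) + v p‖ ^ 2
/-- the closed square of the block `B` of side `l`, fattened by `w` -/
def fat (l w : ℕ) (B : P) : Finset P :=
  Icc (B.1 * l - w) ((B.1 + 1) * l + w) ×ˢ Icc (B.2 * l - w) ((B.2 + 1) * l + w)
def nb (l : ℕ) (B : P) : Finset P := fat l (l / 4) B
def nbs (l : ℕ) (X : Finset P) : Finset P := X.biUnion (nb l)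
def Nf (l : ℕ) (v : Fld) (S : Finset P) : ℝ := ∑ p ∈ S, (n1 v p + (l : ℝ) ^ 2 * n2 v p)
def N0 (l : ℕ) (v : Fld) (S : Finset P) : ℝ := Nf l v S + ∑ p ∈ S, ‖v p‖ ^ 2 / (l : ℝ) ^ 2
/-- exponent of the regulator -/
def Reg (l : ℕ) (X : Finset P) (θ : P → ℝ) : ℝ :=
  ∑ x ∈ under l X, n1 (cf θ) x + (1 / 8) * ∑ x ∈ nbs l X \ under l X, n1 (cf θ) x +
    (l : ℝ) ^ 2 * ∑ p ∈ nbs l X, n2 (cf θ) p
/-- odd under the reflections in the sides of the square `[0,n]^2` -/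
def Dir (n : ℕ) (θ : P → ℝ) : Prop := ∀ p : P, θ (-p.1, p.2) = -θ p ∧ θ (p.1, -p.2) = -θ p ∧
  θ (p.1 + 2 * n, p.2) = θ p ∧ θ (p.1, p.2 + 2 * n) = θ p
def sqr (n : ℕ) : Finset P := Icc (0 : ℤ) n ×ˢ Icc (0 : ℤ) n
def inn (n : ℕ) : Finset P := Ioo (0 : ℤ) n ×ˢ Ioo (0 : ℤ) n
def ring (n : ℕ) : Finset P := sqr n \ inn n
def Strip (n l : ℕ) (h h' : ℝ) (X : Finset P) (v : Fld) : Prop :=
  (∀ B ∈ X, Nf l v (nb l B) ≤ h ^ 2) ∧ (∀ p ∈ nbs l X, p ∈ ring n → v p = 0) ∧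
    ∃ c : ℂ, ((nbs l X ∩ ring n).Nonempty → c = 0) ∧ ∀ p ∈ nbs l X, ‖v p - c‖ ≤ h'
/-- boundary values: 1 on the left and top sides, 0 on the bottom and right sides -/
def uB (n : ℕ) (p : P) : ℝ := if (p.1 = 0 ∧ 0 < p.2) ∨ (p.2 = n ∧ p.1 < n) then 1 else 0
def Lap : Module.End ℝ (P → ℝ) where
  toFun f p := 4 * f p - ∑ d, f (p + dir d)
  map_add' f g := by ext p; simp [sum_add_distrib]; ring
  map_smul' a f := by ext p; simp [mul_sum, mul_sub]; ring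
def IsU (n : ℕ) (u : P → ℝ) : Prop := (∀ p ∈ ring n, u p = uB n p) ∧
  (∀ p ∈ inn n, Lap u p = 0) ∧ ∀ p, p ∉ sqr n → u p = 0
def uu (n : ℕ) : P → ℝ := if h : ∃ u, IsU n u then h.choose else 0
/-- energy of the background with the two fictitious half edges -/
def Rt (n : ℕ) : ℝ := ∑ x ∈ box n, n1 (cf (uu n)) x
def bg (n : ℕ) (z : ℂ) : Fld := fun p => z * uu n p

def Bd (n l : ℕ) (κ h h' : ℝ) (z : ℂ) (X : Finset P) (F : Fld → ℂ) (a : ℝ) : Prop :=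
  ∀ θ, Dir n θ → ∀ v, Strip n l h h' X v →
    ‖F (bg n z + cf θ + v)‖ ≤ a * Real.exp (κ * Reg l X θ)
def Hol (n l : ℕ) (h h' : ℝ) (t0 : ℝ) (X : Finset P) (F : ℂ → Fld → ℂ) : Prop :=
  ∀ θ, Dir n θ → ∀ (O : Set ℂ) (zf : ℂ → ℂ) (vf : ℂ → Fld), IsOpen O → DifferentiableOn ℂ zf O →
    (∀ p, DifferentiableOn ℂ (fun s => vf s p) O) →
    (∀ s ∈ O, ‖zf s‖ ≤ t0 ∧ Strip n l h h' X (vf s)) →
    DifferentiableOn ℂ (fun s => F (zf s) (bg n (zf s) + cf θ + vf s)) O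
/-- measurable, and a function of the field on the part of the square near `X` -/
def Loc (n l : ℕ) (X : Finset P) (F : Fld → ℂ) : Prop :=
  Measurable F ∧ ∀ Θ Ξ : Fld, (∀ p ∈ nbs l X ∩ sqr n, Θ p = Ξ p) → F Θ = F Ξ

def fold (n : ℕ) (x : ℤ) : ℤ := if x % (2 * n) ≤ n then x % (2 * n) else 2 * n - x % (2 * n)
def sg (n : ℕ) (x : ℤ) : ℝ :=
  if x % (2 * n) = 0 ∨ x % (2 * n) = n then 0 else if x % (2 * n) < n then 1 else -1
/-- odd periodic extension of the values at the inner vertices -/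
def ext (n : ℕ) (g : P → ℝ) : P → ℝ := fun p => sg n p.1 * sg n p.2 * g (fold n p.1, fold n p.2)
def Tc : ℕ → Module.End ℝ (P → ℝ)
  | 0 => 1 - (1 / 8 : ℝ) • Lap
  | k + 1 => (2 : ℝ) • (Tc k * Tc k) - 1
def Pn : ℕ → Module.End ℝ (P → ℝ)
  | 0 => 1
  | k + 1 => Pn k * Tc k
def Sq (k i : ℕ) : Module.End ℝ (P → ℝ) :=
  ((2 : ℝ) ^ k / 2) • ((1 - (1 / 16 : ℝ) • Lap) * Pn k ^ 6 * Tc k ^ i)
def lev (L : ℕ) : ℕ → ℕ
  | 0 => 0
  | j + 1 => Nat.log 2 (L ^ (j + 1) / 100)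
abbrev Om := ℕ × P → ℝ
def PP : Measure Om := Measure.infinitePi fun _ => gaussianReal 0 1
/-- the fluctuation field of the step from scale `j` to scale `j + 1` -/
def zeta (L n j : ℕ) (ω : Om) : P → ℝ :=
  ∑ k ∈ Ico (lev L j) (lev L (j + 1)), ∑ i ∈ range 5, Sq k i (ext n fun p => ω (5 * k + i, p))
/-- white noise of variance 1/16 (layer 4) -/
def zw (n : ℕ) (ω : Om) : P → ℝ := (1 / 4 : ℝ) • ext n fun p => ω (4, p)
/-- a symmetric square root of the inverse Dirichlet Laplacian minus 1/16 -/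
def IsRoot (n : ℕ) (G : P → P → ℝ) : Prop := (∀ p q, G p q = G q p) ∧
  ∀ p ∈ inn n, ∀ q ∈ inn n,
    Lap (ext n fun x => ∑ y ∈ inn n, G x y * G y q + if x = q then 1 / 16 else 0) p =
      if p = q then 1 else 0
def root (n : ℕ) : P → P → ℝ := if h : ∃ G, IsRoot n G then h.choose else 0
/-- the last field, after the levels below `k` -/
def zr (n k : ℕ) (ω : Om) : P → ℝ :=
  (Pn k ^ 5) (ext n fun p => ∑ q ∈ inn n, root n p q * ω (0, q))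
/-- `F` after the first `j` steps -/
def Ex (L n : ℕ) (F : Fld → ℂ) : ℕ → Fld → ℂ
  | 0 => F
  | j + 1 => fun Θ => ∫ ω, Ex L n F j (Θ + cf (zeta L n j ω)) ∂PP
def Tot (L n J : ℕ) (F : Fld → ℂ) (Θ : Fld) : ℂ :=
  ∫ ω, Ex L n F J (Θ + cf (zr n (lev L J) ω)) ∂PP
/-- oriented edges of the box of faces -/
def hes (n : ℕ) : Finset (P × Fin 4) := (box n ×ˢ univ).filter fun e => e.1 + dir e.2 ∈ box n
/-- edges of the box, each once -/
def eds (n : ℕ) : Finset (P × Fin 4) := (hes n).filter fun e => e.2 = 0 ∨ e.2 = 1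
def lin (y : ℂ × ℂ) : Fld := fun p => y.1 * p.1 + y.2 * p.2

end Pool.Agent.Lib.MP_9cc147_pr.Cx
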