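import Pool.Agent.Lib.MP_9cc147_pr.Cx.D1

/-! The renormalisation step and the flow. -/

open scoped Classical Topology
open Finset MeasureTheory ProbabilityTheory Filter

noncomputable section
namespace Pool.Agent.Lib.MP_9cc147_pr.Cx

/-- random input of one reblocking, at a fixed value of the field -/
structure Inp where
  It : Lab → P → ℂ
  et : Lab → P → ℂ
  d : Lab → P → ℂ
  d' : Lab → P → ℂ
  M : Om → Lab → P → ℂ
  K : Om → Lab → Finset P → ℂ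
  N : Om → Finset P → (P → Option Lab) → ℂ

def rb0 (μ : Measure Om) (L s0 : ℕ) (D : Finset P) (a : Inp) (s : Lab) (U : Finset P) : ℂ :=
  Complex.exp (∑ B ∈ under L U, a.et s B) * ∫ ω, L0 L s0 D U a.It (a.M ω) (a.K ω) s ∂μ
def rb1 (μ : Measure Om) (L s0 : ℕ) (D : Finset P) (a : Inp) (U : Finset P)
    (σ : P → Option Lab) : ℂ :=
  Complex.exp (∑ B ∈ under L U, a.et 0 B) *
    ∫ ω, L1 L s0 D U (fun s B => Complex.exp (-a.d s B) * a.It s B) (a.M ω) (a.K ω) (a.N ω) σ ∂μ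
def rbK (μ : Measure Om) (L s0 : ℕ) (D : Finset P) (a : Inp) (s : Lab) (U : Finset P) : ℂ :=
  rb0 μ L s0 D a s U + if (bdry D U).Nonempty then
    Complex.exp (∑ B ∈ U, a.d' s B) * rb1 μ L s0 D a U (cst D U s) else 0
def rbN (μ : Measure Om) (L s0 : ℕ) (D : Finset P) (a : Inp) (U : Finset P)
    (σ : P → Option Lab) : ℂ := if Nn D U σ then rb1 μ L s0 D a U σ else 0

structure Par where
  L : ℕ
  A : ℝ
  κ : ℝ
  h : ℝ
  C : ℝ
  ε : ℝ

/-- activities on one box at one scale for one value of `z` -/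
structure Act where
  K : Lab → Finset P → Fld → ℂ
  N : Finset P → (P → Option Lab) → Fld → ℂ
  d : Lab → P → ℂ

/-- couplings, and activities on all boxes `(k, J)` for all `z` -/
structure State where
  lam : Lab → ℝ
  a : ℕ × ℕ → ℂ → Act

namespace Par
variable (q : Par)
/-- number of sites along a side of the box `(k, J)` -/
def n (b : ℕ × ℕ) : ℕ := b.1 * q.L ^ (b.2 + 2)
def l (j : ℕ) : ℕ := q.L ^ (j + 1)
/-- number of blocks of scale `j` along a side -/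
def m (b : ℕ × ℕ) (j : ℕ) : ℕ := b.1 * q.L ^ (b.2 + 1 - j)
def Qz (b : ℕ × ℕ) (j : ℕ) (z : ℂ) (B : P) (Θ : Fld) : ℂ :=
  En Θ (cell (q.l j) B) - if ab (q.m b j) B then En (bg (q.n b) z) (cell (q.l j) B) else 0
def Ih (b : ℕ × ℕ) (j : ℕ) (z : ℂ) (lam : ℝ) (B : P) (Θ : Fld) : ℂ :=
  Complex.exp (-(lam / 2 : ℂ) * q.Qz b j z B Θ)
def ctr (b : ℕ × ℕ) (j : ℕ) (z : ℂ) (X : Finset P) : Fld :=
  if spec (q.m b j) X then bg (q.n b) z else 0
def Ez (b : ℕ × ℕ) (j : ℕ) (F : Fld → ℂ) (Θ : Fld) : ℂ :=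
  ∫ ω, F (Θ + cf (zeta q.L (q.n b) j ω)) ∂PP
/-- the part of the extracted constant that comes from the polymers -/
def eK (b : ℕ × ℕ) (j : ℕ) (z : ℂ) (K : Finset P → Fld → ℂ) (B : P) : ℂ :=
  ∑ X ∈ smalls (box (q.m b j)) B, q.Ez b j (K X) (q.ctr b j z X) / X.card
def ee (b : ℕ × ℕ) (j : ℕ) (z : ℂ) (lam : ℝ) (K : Finset P → Fld → ℂ) (B : P) : ℂ :=
  (lam / 2 : ℂ) * q.Ez b j (fun Θ => En Θ (cell (q.l j) B)) 0 - q.eK b j z K B
def fB (b : ℕ × ℕ) (j : ℕ) (K : Finset P → Fld → ℂ) (B : P) (y : ℂ × ℂ) : ℂ :=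
  ∑ X ∈ smalls (box (q.m b j)) B, q.Ez b j (K X) (lin y) / X.card
def w0 (j : ℕ) : ℝ := q.h / (q.L * q.l j)
def qB (b : ℕ × ℕ) (j : ℕ) (K : Finset P → Fld → ℂ) (B : P) : ℂ :=
  (q.fB b j K B (q.w0 j, 0) - q.fB b j K B 0) / (q.w0 j : ℂ) ^ 2
/-- centre block of the reference box `(1, j + 1)` -/
def Bc : P := (((q.L ^ 2 / 2 : ℕ) : ℤ), ((q.L ^ 2 / 2 : ℕ) : ℤ))
def dl (j : ℕ) (K : Finset P → Fld → ℂ) : ℝ :=
  -((q.qB (1, j + 1) j K q.Bc).re + (q.qB (1, j + 1) j K (q.Bc + (1, 0))).re) / (q.l j : ℝ) ^ 2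
def xt (b : ℕ × ℕ) (j : ℕ) (z : ℂ) (lam' : ℝ) (B : P) : ℂ :=
  if ab (q.m b (j + 1)) (par q.L B) ∧ ¬ ab (q.m b j) B then
    (lam' / 2 : ℂ) * En (bg (q.n b) z) (cell (q.l j) B) else 0
def clamp (x : ℝ) : ℝ := max (-q.ε) (min q.ε x)
def lam' (j : ℕ) (x : State) (s : Lab) : ℝ := x.lam s + q.dl j ((x.a (1, j + 1) 0).K s)
def e (j : ℕ) (x : State) (b : ℕ × ℕ) (z : ℂ) (s : Lab) (B : P) : ℂ :=
  q.ee b j z (x.lam s) ((x.a b z).K s) B
def et (j : ℕ) (x : State) (b : ℕ × ℕ) (z : ℂ) (s : Lab) (B : P) : ℂ :=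
  q.e j x b z s B + q.xt b j z (q.lam' j x s) B
def It (j : ℕ) (x : State) (b : ℕ × ℕ) (z : ℂ) (Θ : Fld) (s : Lab) (B : P) : ℂ :=
  Complex.exp (-q.e j x b z s B) * q.Ih b j z (q.lam' j x s) B Θ
/-- the new energy difference to phase 0, before clamping -/
def D' (j : ℕ) (x : State) (b : ℕ × ℕ) (z : ℂ) (s : Lab) (B' : P) : ℂ :=
  ∑ B ∈ cell q.L B', ((x.a b z).d s B + q.et j x b z s B - q.et j x b z 0 B)
def d' (j : ℕ) (x : State) (b : ℕ × ℕ) (z : ℂ) (s : Lab) (B' : P) : ℂ :=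
  if corner (q.m b (j + 1)) B' then q.D' j x b z s B' else (q.clamp (q.D' j x b 0 s B').re : ℝ)
def inp (j : ℕ) (x : State) (b : ℕ × ℕ) (z : ℂ) (Θ : Fld) : Inp where
  It := q.It j x b z Θ
  et := q.et j x b z
  d := (x.a b z).d
  d' := q.d' j x b z
  M ω s B := q.Ih b j z (x.lam s) B (Θ + cf (zeta q.L (q.n b) j ω)) / q.It j x b z Θ s B - 1
  K ω s X := (x.a b z).K s X (Θ + cf (zeta q.L (q.n b) j ω)) / ∏ B ∈ X, q.It j x b z Θ s B
  N ω X σ := (x.a b z).N X σ (Θ + cf (zeta q.L (q.n b) j ω))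
/-- the part of the new neutral activity without polymers of the second class -/
def K0 (j : ℕ) (x : State) (b : ℕ × ℕ) (z : ℂ) (s : Lab) (U : Finset P) (Θ : Fld) : ℂ :=
  rb0 PP q.L 4 (box (q.m b (j + 1))) (q.inp j x b z Θ) s U
def step (j : ℕ) (x : State) : State where
  lam := q.lam' j x
  a b z :=
    { K := fun s U Θ => rbK PP q.L 4 (box (q.m b (j + 1))) (q.inp j x b z Θ) s U
      N := fun U σ Θ => rbN PP q.L 4 (box (q.m b (j + 1))) (q.inp j x b z Θ) U σ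
      d := q.d' j x b z }
def flow (x0 : State) : ℕ → State
  | 0 => x0
  | j + 1 => q.step j (flow x0 j)
/-- the partition function at scale `j`, relative to the energy of phase 0 -/
def WW (j : ℕ) (x : State) (b : ℕ × ℕ) (z : ℂ) (Θ : Fld) : ℂ :=
  Wsum (box (q.m b j))
    (fun s B => Complex.exp (-(x.a b z).d s B) * q.Ih b j z (x.lam s) B Θ)
    (fun s X => Complex.exp (-∑ B ∈ X, (x.a b z).d s B) * (x.a b z).K s X Θ)
    (fun X σ => (x.a b z).N X σ Θ)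
def BdJ (b : ℕ × ℕ) (j : ℕ) (z : ℂ) (X : Finset P) (F : Fld → ℂ) (a : ℝ) : Prop :=
  Bd (q.n b) (q.l j) q.κ q.h (q.L * q.h) z X F (a * q.A⁻¹ ^ X.card)
/-- admissible box at scale `j` -/
def ok (b : ℕ × ℕ) (j : ℕ) : Prop := (b.1 = 1 ∨ b.1 = 2) ∧ j ≤ b.2 ∧ 1 ≤ b.2

/-- data before the white noise is integrated -/
structure Pre where
  lam : Lab → ℝ
  c : ℕ × ℕ → Lab → P → ℝ
  I : ℕ × ℕ → ℂ → Fld → Om → Lab → P → ℂ
  K : ℕ × ℕ → ℂ → Fld → Om → Lab → Finset P → ℂ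
  N : ℕ × ℕ → ℂ → Fld → Om → Finset P → (P → Option Lab) → ℂ
def e0 (μ : Measure Om) (p : Pre) (b : ℕ × ℕ) (s : Lab) (B : P) : ℂ :=
  (p.lam s / 2 : ℂ) * (∫ ω, En (cf (zw (q.n b) ω)) (cell q.L B) ∂μ) - Real.log (p.c b s B)
def D0 (μ : Measure Om) (p : Pre) (b : ℕ × ℕ) (s : Lab) (B : P) : ℂ :=
  q.e0 μ p b s B - q.e0 μ p b 0 B
def d0 (μ : Measure Om) (p : Pre) (b : ℕ × ℕ) (s : Lab) (B : P) : ℂ :=
  if corner (q.m b 0) B then q.D0 μ p b s B else (q.clamp (q.D0 μ p b s B).re : ℝ)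
def It0 (μ : Measure Om) (p : Pre) (b : ℕ × ℕ) (z : ℂ) (Θ : Fld) (s : Lab) (B : P) : ℂ :=
  Complex.exp (-q.e0 μ p b s B) * q.Ih b 0 z (p.lam s) B Θ
def inp0 (μ : Measure Om) (p : Pre) (b : ℕ × ℕ) (z : ℂ) (Θ : Fld) : Inp where
  It := q.It0 μ p b z Θ
  et := q.e0 μ p b
  d s B := q.d0 μ p b s B - q.D0 μ p b s B
  d' := q.d0 μ p b
  M ω s B := p.I b z Θ ω s B / q.It0 μ p b z Θ s B - 1
  K ω s X := p.K b z Θ ω s X / ∏ B ∈ X, q.It0 μ p b z Θ s B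
  N ω X σ := p.N b z Θ ω X σ
def init (μ : Measure Om) (p : Pre) : State where
  lam := p.lam
  a b z :=
    { K := fun s U Θ => rbK μ 1 0 (box (q.m b 0)) (q.inp0 μ p b z Θ) s U
      N := fun U σ Θ => rbN μ 1 0 (box (q.m b 0)) (q.inp0 μ p b z Θ) U σ
      d := q.d0 μ p b }
/-- the Gaussian data of stiffness `mu` -/
def gPre (mu : ℝ) : Pre where
  lam _ := mu
  c _ _ _ := 1
  I b z Θ ω _ B := q.Ih b 0 z mu B (Θ + cf (zw (q.n b) ω))
  K _ _ _ _ _ _ := 0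
  N _ _ _ _ _ _ := 0
def gau (mu : ℝ) (j : ℕ) : State := q.flow (q.init PP (q.gPre mu)) j
end Par

/-- order of the choice of the constants of the renormalisation group -/
def Ev (p : Par → Prop) : Prop :=
  ∀ᶠ L : ℕ in atTop, Odd L → ∀ᶠ A : ℝ in atTop, ∀ᶠ κ : ℝ in 𝓝[>] 0, ∀ᶠ h : ℝ in atTop,
    ∀ᶠ C : ℝ in atTop, ∀ᶠ ε : ℝ in 𝓝[>] 0, p ⟨L, A, κ, h, C, ε⟩
def FP : Filter Par where
  sets := {S | Ev (· ∈ S)}
  univ_sets := by simp [Ev]
  sets_of_superset := by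
    intro S T hS hST
    refine Filter.Eventually.mono hS fun L h o => (h o).mono fun A h => h.mono fun κ h =>
      h.mono fun h' h => h.mono fun C h => h.mono fun ε h => hST h
  inter_sets := by
    intro S T hS hT
    refine (Filter.Eventually.and hS hT).mono fun L h o => ((h.1 o).and (h.2 o)).mono fun A h =>
      (h.1.and h.2).mono fun κ h => (h.1.and h.2).mono fun h' h => (h.1.and h.2).mono fun C h =>
      (h.1.and h.2).mono fun ε h => ⟨h.1, h.2⟩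

end Pool.Agent.Lib.MP_9cc147_pr.Cx
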