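import Pool.Agent.Lib.MP_9cc147_pr.Cx.D2

/-! The model: wells, labels, pure tiles and the data at scale 0. -/

open scoped Classical Topology
open Finset MeasureTheory ProbabilityTheory Filter

noncomputable section
namespace Pool.Agent.Lib.MP_9cc147_pr.Cx

/-- number of generators: `R` light ones, then `R^2` and `R^2/2` heavy ones -/
def ng (R : ℕ) : ℕ := R + R ^ 2 + R ^ 2 / 2
abbrev Gp (R : ℕ) := Fin (ng R) → ℤ
def mu (R : ℕ) (i : Fin (ng R)) : ℕ := if i.val < R then 1 else 2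
def nrm {R : ℕ} (w : Gp R) : ℕ := ∑ i, mu R i * (w i).natAbs
def Wk (R k : ℕ) : Finset (Gp R) :=
  (Fintype.piFinset fun _ => Icc (-2 : ℤ) 2).filter fun w => nrm w = k
def Wl (R : ℕ) : Finset (Gp R) := Wk R 0 ∪ Wk R 2
def isG {R : ℕ} (w : Gp R) : Prop := ∃ i, R ≤ i.val ∧ w i ≠ 0
/-- weight of the label of a site: 1 in phase 0, alternately 2 and 0 in phases 1 and 2 -/
def typ (s : Lab) (x : P) : ℕ := if s = 0 then 1 else if (Even (x.1 + x.2) ↔ s = 1) then 2 else 0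
/-- the four corner squares of side 4 -/
def cq (n : ℕ) (x : P) : Prop := (x.1 < 4 ∨ (n : ℤ) - 4 ≤ x.1) ∧ (x.2 < 4 ∨ (n : ℤ) - 4 ≤ x.2)
abbrev Form (R : ℕ) := P × Fin 4 → Gp R
def rev (e : P × Fin 4) : P × Fin 4 := (e.1 + dir e.2, e.2 + 2)
/-- oriented edges with an end in the set of sites `S` -/
def he (n : ℕ) (S : Finset P) : Finset (P × Fin 4) :=
  (hes n).filter fun e => e.1 ∈ S ∨ (rev e).1 ∈ S
def curl {α : Type} [AddCommMonoid α] (δ : P × Fin 4 → α) (p : P) : α :=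
  ∑ d, δ (p - crn (d + 1), d)
/-- antisymmetric forms on the edges at `S`, with wells on the edges inside `S` -/
def forms (R n : ℕ) (S : Finset P) : Finset (Form R) :=
  (cfgs (Wl R ∪ Wk R 1) 0 (he n S)).filter fun δ => (∀ e, δ (rev e) = -δ e) ∧
    ∀ e ∈ he n S, e.1 ∈ S → (rev e).1 ∈ S → δ e ∈ Wl R
def grad {R : ℕ} (n : ℕ) (S : Finset P) (a : P → Gp R) (δ : Form R) : Prop :=
  ∀ e ∈ hes n, e.1 ∈ S → (rev e).1 ∈ S → δ e = a (rev e).1 - a e.1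
/-- the labels `a` are of phase `s` and generic on the tile `T`, and no heavy noise sits on it -/
def pure {R : ℕ} (n L : ℕ) (s : Lab) (a : P → Gp R) (ω : Om) (T : P) : Prop :=
  (∀ x ∈ cell L T, ¬ cq n x → nrm (a x) = typ s x) ∧
  (∀ x ∈ cell L T, ∀ y ∈ cell L T, ¬ cq n x → ¬ cq n y → x ≠ y → ∀ i, a x i = 0 ∨ a y i = 0) ∧
  ∀ e ∈ hes n, e.1 ∈ cell L T → ω (e.2.val, e.1) = 0
def pureOn {R : ℕ} (n L : ℕ) (s : Lab) (a : P → Gp R) (ω : Om) (δ : Form R) (V : Finset P) :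
    Prop := (∀ T ∈ V, pure n L s a ω T) ∧ grad n (under L V) a δ
/-- configurations on a bad component `X` of tiles with good tiles of phases `σ` around it -/
def adm (R n L m : ℕ) (ω : Om) (X : Finset P) (σ : P → Option Lab) : Finset (Form R) :=
  (forms R n (under L X)).filter fun δ =>
    (∀ T' ∈ bdry (box m) X, ∃ s a, σ T' = some s ∧ pureOn n L s a ω δ (near 1 X {T'}) ∧
      ∀ e ∈ hes n, e.1 ∈ under L X → (rev e).1 ∈ cell L T' → δ e = -a e.1) ∧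
    ∀ T ∈ X, ¬ ∃ s a, pureOn n L s a ω δ (near 1 X {T}) ∧
      ∀ T' ∈ near 1 (box m) {T} \ X, σ T' = some s
/-- configurations on a good tile -/
def pur (R n L : ℕ) (ω : Om) (s : Lab) (T : P) : Finset (Form R) :=
  (forms R n (cell L T)).filter fun δ => ∃ a, pureOn n L s a ω δ {T} ∧
    ∀ e ∈ hes n, e.1 ∈ cell L T → (rev e).1 ∉ cell L T → δ e = -a e.1
/-- edges leaving `S` -/
def crs (n : ℕ) (S : Finset P) : Finset (P × Fin 4) :=
  (hes n).filter fun e => e.1 ∈ S ∧ (rev e).1 ∉ S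
/-- capacity of a slot: larger on the edges along the sides of the box -/
def cap (n : ℕ) (e : P × Fin 4) : ℝ :=
  if e.1 + crn e.2 ∈ ring n ∨ e.1 + crn (e.2 + 1) ∈ ring n then 3 / 8 else 1 / 4
/-- label weight minus one at the inner end of an edge leaving a set of tiles -/
def exc (L : ℕ) (σ : P → Option Lab) (e : P × Fin 4) : ℝ :=
  ((σ (par L (rev e).1)).map fun s => (typ s e.1 : ℝ) - 1).getD 0
def nexp (n L : ℕ) (X : Finset P) (σ : P → Option Lab) : ℝ :=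
  (L : ℝ) ^ 2 * X.card + ∑ e ∈ crs n (under L X), exc L σ e * cap n e
def Lc (R X : Finset P) (σ : P → Option Lab) : Prop :=
  ∀ a ∈ bdry R X, ∀ b ∈ bdry R X, nr 1 a b → σ a = σ b
/-- vortices of the labels -/
def vort {R : ℕ} (n : ℕ) (δ : Form R) : Finset P := (inn n).filter fun p => curl δ p ≠ 0

structure Mod where
  η : ℝ
  R : ℕ
  gap : ℝ
  Bw : ℝ
  a : ℝ
  x1 : ℝ
  h : ℝ → ℝ

namespace Mod
variable (o : Mod)
def r : ℝ := 2 * o.R
def x2 : ℝ := (4 * Real.exp o.a - 2 - 2 * o.x1 ^ 4) ^ (1 / 4 : ℝ)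
def H (w : Gp o.R) : ℝ := o.gap * ∑ i, 20 ^ i.val * (w i : ℝ)
def xw (w : Gp o.R) : ℝ :=
  if ∃ i, o.R + o.R ^ 2 ≤ i.val ∧ w i ≠ 0 then o.x2 else if isG w then o.x1 else 1
def gam : ℝ := 1 - Real.exp (-o.a) / 2
def eta (w : Gp o.R) : ℝ := if isG w then 2 * o.η else o.η
def hB (x : ℝ) : ℝ := o.Bw * o.h (o.Bw * x)
def sig0 : ℝ := (Real.sqrt o.Bw)⁻¹
def eh : ℝ := ∫ x in {x | o.sig0 < |x|}, o.hB x
/-- transform of the light part of the noise -/
def hl (y : ℂ) : ℂ := ∫ x in {x | |x| ≤ o.sig0}, o.hB x * Complex.exp (Complex.I * x * y)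
/-- law of the noise on a half edge: an atom at 0 (light) and the heavy part -/
def mh : Measure ℝ := (ENNReal.ofReal (1 + o.eh))⁻¹ • (Measure.dirac 0 +
  (volume.restrict {x | o.sig0 < |x|}).withDensity fun x => ENNReal.ofReal (o.hB x))
/-- the measure whose Gaussian smoothing is the weight of an edge -/
def nu : Measure ℝ := ∑ w ∈ Wl o.R, ENNReal.ofReal (o.xw w) •
  (((gaussianReal (o.H w) (o.eta w).toNNReal).conv
    (volume.withDensity fun x => ENNReal.ofReal (o.hB x))).conv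
    (volume.withDensity fun x => ENNReal.ofReal (o.hB x)))
def xi (n : ℕ) (S : Finset P) (ω : Om) (e : P × Fin 4) : ℝ :=
  if e ∈ hes n then (if e.1 ∈ S then ω (e.2.val, e.1) else 0) -
    (if (rev e).1 ∈ S then ω ((rev e).2.val, (rev e).1) else 0) else 0
def rho (n : ℕ) (S : Finset P) (δ : Form o.R) (ω : Om) (p : P) : ℝ :=
  o.H (curl δ p) + curl (xi n S ω) p
end Mod

/-- the boundary vertices at the tiles `X` that serve as reference -/
def refs (n L m : ℕ) (X : Finset P) : Finset P :=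
  (ring n ∩ X.biUnion (fat L 0)).filter fun p => spec m X → uB n p = 0
def Et (z : ℂ) (t J : ℝ) : ℂ :=
  1 + z ^ 2 * ((Real.cos (t * J) - 1) / t ^ 2 : ℝ) + Complex.I * z * (Real.sin (t * J) / t : ℝ)
def mu0 (m : Measure ℝ) : Measure Om :=
  Measure.infinitePi fun i => if i.1 < 4 then m else gaussianReal 0 1

namespace Mod
variable (o : Mod)
/-- weight of a configuration on the tiles `X` -/
def wt (n L m : ℕ) (t : ℝ) (z : ℂ) (Θ : Fld) (ω : Om) (X : Finset P) (σ : P → Option Lab)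
    (δ : Form o.R) : ℂ :=
  let S := under L X
  let ρ := o.rho n S δ ω
  let Ξ : Fld := fun p => Θ p + zw n ω p + if p ∈ inn n then Complex.I * ρ p / 16 else 0
  (∏ e ∈ he n S, ((Real.sqrt (o.xw (δ e)) : ℝ) *
      Complex.exp (-(if isG (δ e) then o.η / 4 else 0 : ℝ) * dg Ξ e.1 e.2 ^ 2))) *
    (∏ e ∈ (hes n).filter (fun e => e.1 ∈ S), Complex.exp (-(o.η / 4 : ℝ) * dg Ξ e.1 e.2 ^ 2) *
      (1 + o.eh : ℝ) * if ω (e.2.val, e.1) = 0 then o.hl (dg Ξ e.1 e.2) else 1) *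
    (∏ e ∈ crs n S, Complex.exp ((exc L σ e * o.gam * o.η / 4 : ℝ) * dg Ξ e.1 e.2 ^ 2)) *
    Complex.exp (∑ p ∈ inn n, (-(ρ p ^ 2 / 32 : ℝ) + Complex.I * ρ p *
      (Θ p - (∑ y ∈ refs n L m X, Θ y) / (refs n L m X).card))) *
    if spec m X then Et z t (∑ p ∈ (ring n).filter (fun p => uB n p = 1), ρ p) else 1
def kp (n L m : ℕ) (t : ℝ) (z : ℂ) (Θ : Fld) (ω : Om) (X : Finset P) (σ : P → Option Lab) : ℂ :=
  (o.r ^ (-nexp n L X σ) : ℝ) * ∑ δ ∈ adm o.R n L m ω X σ, o.wt n L m t z Θ ω X σ δ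
def ip (n L m : ℕ) (t : ℝ) (z : ℂ) (Θ : Fld) (ω : Om) (s : Lab) (T : P) : ℂ :=
  (o.r ^ (-nexp n L {T} fun _ => some s) : ℝ) *
    ∑ δ ∈ pur o.R n L ω s T, o.wt n L m t z Θ ω {T} (fun _ => some s) δ
def cp (n L : ℕ) (s : Lab) (T : P) : ℝ := o.r ^ (-nexp n L {T} fun _ => some s) *
  ∑ δ ∈ pur o.R n L 0 s T, ∏ e ∈ he n (cell L T), Real.sqrt (o.xw (δ e))
def lam0 (s : Lab) : ℝ := if s = 0 then o.η else o.η * (1 + o.gam)
def pre (q : Par) (t : ℝ) : Par.Pre where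
  lam := o.lam0
  c b := o.cp (q.n b) q.L
  I b z Θ ω := o.ip (q.n b) q.L (q.m b 0) t z Θ ω
  K b z Θ ω s X := if (bdry (box (q.m b 0)) X).Nonempty then
    o.kp (q.n b) q.L (q.m b 0) t z Θ ω X (cst (box (q.m b 0)) X s) else 0
  N b z Θ ω X σ := if Nn (box (q.m b 0)) X σ ∧ Lc (box (q.m b 0)) X σ then
    o.kp (q.n b) q.L (q.m b 0) t z Θ ω X σ else 0
/-- the flow of the model -/
def fl (q : Par) (t : ℝ) (j : ℕ) : State := q.flow (q.init (mu0 o.mh) (o.pre q t)) j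
end Mod

def nuh (ν : Measure ℝ) (y : ℂ) : ℂ := ∫ x, Complex.exp (Complex.I * x * y) ∂ν
/-- the dual weight after the white noise -/
def W0 (ν : Measure ℝ) (n : ℕ) (Θ : Fld) : ℂ :=
  ∫ ω, ∏ e ∈ eds n, nuh ν (dg (Θ + cf (zw n ω)) e.1 e.2) ∂PP
/-- weight of an edge -/
def wN (ν : Measure ℝ) (x : ℝ) : ℝ := ∫ y, Real.exp (-(x - y) ^ 2 / 2) ∂ν
/-- Fourier type representation with frequencies in `[-B, B]` -/
def BL (B : ℝ) (f : ℝ → ℝ) : Prop := ∃ (μ : Measure ℝ) (γ : ℝ → ℂ), IsFiniteMeasure μ ∧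
  Integrable γ μ ∧ (∀ᵐ s ∂μ, |s| ≤ B) ∧
    ∀ x : ℝ, (f x : ℂ) = ∫ s, Complex.exp (Complex.I * x * s) * γ s ∂μ
/-- an even band limited density with stretched exponential tails -/
structure IsH (h : ℝ → ℝ) : Prop where
  cont : Continuous h
  nonneg : ∀ x, 0 ≤ h x
  even : ∀ x, h (-x) = h x
  one : ∫ x, h x = 1
  tail : ∃ c K : ℝ, 0 < c ∧ ∀ x, h x ≤ K * Real.exp (-c * Real.sqrt |x|)
  bl : ∃ B, BL B h

/-- order of the choice of the constants of the model (`t0` last) -/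
def EvM (p : ℝ → ℕ → ℝ → ℝ → ℝ → Prop) : Prop :=
  ∀ᶠ η : ℝ in 𝓝[>] 0, ∀ᶠ R : ℕ in atTop, Even R → ∀ᶠ gap : ℝ in atTop, ∀ᶠ Bw : ℝ in atTop,
    ∀ᶠ t0 : ℝ in 𝓝[>] 0, p η R gap Bw t0
def rect : Set (ℝ × ℝ) := Set.Icc (-(1 / 100)) (1 / 100) ×ˢ Set.Icc (1 / 10) (9 / 10)

end Pool.Agent.Lib.MP_9cc147_pr.Cx
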