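import Pool.Agent.Lib.MP_9cc147_pr.Cx.D3

/-! Invariants of the flow and hypotheses on the data at scale 0. -/

open scoped Classical Topology ComplexConjugate
open Finset MeasureTheory ProbabilityTheory Filter

noncomputable section
namespace Pool.Agent.Lib.MP_9cc147_pr.Cx

def Pm (m : ℕ) (X : Finset P) : Prop := X ⊆ box m ∧ Conn X
/-- holomorphic in `z` on the closed disc, along paths -/
def Hz (t0 : ℝ) (f : ℂ → ℂ) : Prop := ∀ (O : Set ℂ) (zf : ℂ → ℂ), IsOpen O →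
  DifferentiableOn ℂ zf O → (∀ s ∈ O, ‖zf s‖ ≤ t0) → DifferentiableOn ℂ (fun s => f (zf s)) O
/-- the move `(g, c)` carries the surroundings of `U` in the box `m` to the box `m'`, and at most
one side is in sight -/
def Mv (m m' : ℕ) (g : Sy) (c : P) (U : Finset P) : Prop :=
  (∀ B, (∃ a ∈ U, nr 1 a B) → (B ∈ box m ↔ fm g c B ∈ box m')) ∧
  (sds m (near 1 (box m) U)).card ≤ 1 ∧
  (sds m' (near 1 (box m') (U.image (fm g c)))).card ≤ 1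
def smul (l : ℕ) (c : P) : P := (l * c.1, l * c.2)

namespace Par
variable (q : Par)

structure Str (t0 : ℝ) (j : ℕ) (x : State) : Prop where
  locK : ∀ b z s X, ok b j → Pm (q.m b j) X → Loc (q.n b) (q.l j) X ((x.a b z).K s X)
  locN : ∀ b z X σ, ok b j → Pm (q.m b j) X → Loc (q.n b) (q.l j) X ((x.a b z).N X σ)
  holK : ∀ b s X, ok b j → Pm (q.m b j) X →
    Hol (q.n b) (q.l j) q.h (q.L * q.h) t0 X fun z => (x.a b z).K s X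
  holN : ∀ b X σ, ok b j → Pm (q.m b j) X →
    Hol (q.n b) (q.l j) q.h (q.L * q.h) t0 X fun z => (x.a b z).N X σ
  hold : ∀ b s B, ok b j → B ∈ box (q.m b j) → Hz t0 fun z => (x.a b z).d s B
  shK : ∀ b z s X Θ (c : ℂ), ok b j → Pm (q.m b j) X →
    (x.a b z).K s X (fun p => Θ p + c) = (x.a b z).K s X Θ
  shN : ∀ b z X σ Θ (c : ℂ), ok b j → Pm (q.m b j) X →
    (x.a b z).N X σ (fun p => Θ p + c) = (x.a b z).N X σ Θ
  negK : ∀ b z s X Θ, ok b j → Pm (q.m b j) X → (x.a b (-z)).K s X (-Θ) = (x.a b z).K s X Θ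
  negN : ∀ b z X σ Θ, ok b j → Pm (q.m b j) X → (x.a b (-z)).N X σ (-Θ) = (x.a b z).N X σ Θ
  negd : ∀ b z s B, ok b j → B ∈ box (q.m b j) → (x.a b (-z)).d s B = (x.a b z).d s B
  cjK : ∀ b s X Θ, ok b j → Pm (q.m b j) X →
    (x.a b 0).K s X (fun p => conj (Θ p)) = conj ((x.a b 0).K s X Θ)
  cjN : ∀ b X σ Θ, ok b j → Pm (q.m b j) X →
    (x.a b 0).N X σ (fun p => conj (Θ p)) = conj ((x.a b 0).N X σ Θ)
  cjd : ∀ b s B, ok b j → B ∈ box (q.m b j) → ((x.a b 0).d s B).im = 0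
  farK : ∀ b z s X, ok b j → Pm (q.m b j) X → ¬ spec (q.m b j) X →
    (x.a b z).K s X = (x.a b 0).K s X
  farN : ∀ b z X σ, ok b j → Pm (q.m b j) X → ¬ spec (q.m b j) X →
    (x.a b z).N X σ = (x.a b 0).N X σ
  fard : ∀ b z s B, ok b j → B ∈ box (q.m b j) → ¬ ab (q.m b j) B →
    (x.a b z).d s B = (x.a b 0).d s B
  isoK : ∀ b b' g c s X Θ, ok b j → ok b' j → Pm (q.m b j) X → Mv (q.m b j) (q.m b' j) g c X →
    (x.a b' 0).K (pm g c s) (X.image (fm g c)) Θ = (x.a b 0).K s X (Θ ∘ vm g (smul (q.l j) c))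
  isoN : ∀ b b' g c X σ σ' Θ, ok b j → ok b' j → Pm (q.m b j) X →
    Mv (q.m b j) (q.m b' j) g c X → (∀ B, σ' (fm g c B) = (σ B).map (pm g c)) →
    (x.a b' 0).N (X.image (fm g c)) σ' Θ = (x.a b 0).N X σ (Θ ∘ vm g (smul (q.l j) c))
  isod : ∀ b b' g c s B, ok b j → ok b' j → B ∈ box (q.m b j) →
    Mv (q.m b j) (q.m b' j) g c {B} → (x.a b' 0).d (pm g c s) (fm g c B) = (x.a b 0).d s B
  lam12 : x.lam 1 = x.lam 2
  d0 : ∀ b z B, (x.a b z).d 0 B = 0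

structure Bnd (t0 : ℝ) (j : ℕ) (x : State) (α ν ρ : ℝ) : Prop where
  lam : ∀ s, |x.lam s| ≤ α
  K : ∀ b z s X, ok b j → ‖z‖ ≤ t0 → Pm (q.m b j) X → q.BdJ b j z X ((x.a b z).K s X) α
  N : ∀ b z X σ, ok b j → ‖z‖ ≤ t0 → Pm (q.m b j) X →
    q.BdJ b j z X ((x.a b z).N X σ) (ν * ρ ^ ncor (q.m b j) X)
  d : ∀ b z s B, ok b j → ‖z‖ ≤ t0 → B ∈ box (q.m b j) →
    if corner (q.m b j) B then Real.exp |((x.a b z).d s B).re| ≤ ρ else ‖(x.a b z).d s B‖ ≤ q.ε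

/-- the neutral activities of phase `s` of two states differ by `δ` on the polymers inside `V` -/
def Dif (t0 : ℝ) (j : ℕ) (x y : State) (s : Lab) (b : ℕ × ℕ) (V : Finset P) (δ : ℝ) : Prop :=
  ∀ z X, ‖z‖ ≤ t0 → Pm (q.m b j) X → X ⊆ V →
    q.BdJ b j z X (fun Θ => (x.a b z).K s X Θ - (y.a b z).K s X Θ) δ

/-- continuity in a parameter, at `z = 0` -/
structure Cont {T : Type} [TopologicalSpace T] (j : ℕ) (x : T → State) : Prop where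
  lam : ∀ s, Continuous fun τ => (x τ).lam s
  d : ∀ b s B, ok b j → B ∈ box (q.m b j) → Continuous fun τ => ((x τ).a b 0).d s B
  K : ∀ b s X θ v, ok b j → Pm (q.m b j) X → Dir (q.n b) θ →
    Strip (q.n b) (q.l j) q.h (q.L * q.h) X v → Continuous fun τ => ((x τ).a b 0).K s X (cf θ + v)
  N : ∀ b X σ θ v, ok b j → Pm (q.m b j) X → Dir (q.n b) θ →
    Strip (q.n b) (q.l j) q.h (q.L * q.h) X v → Continuous fun τ => ((x τ).a b 0).N X σ (cf θ + v)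

/-- jointly measurable, and a function of the field and of the noise on the closed tiles of `X` -/
def Loc0 (X : Finset P) (F : Fld → Om → ℂ) : Prop :=
  Measurable (fun y : Fld × Om => F y.1 y.2) ∧ ∀ Θ Ξ ω ω',
    (∀ p ∈ X.biUnion (fat q.L 0), Θ p = Ξ p ∧ ∀ i, ω (i, p) = ω' (i, p)) → F Θ ω = F Ξ ω'
/-- `F1` and `F2` are the data of `p` at two arguments, on all tiles and polymers inside `U` -/
def Rel (p : Pre) (φ : ℂ → ℂ) (b b' : ℕ × ℕ) (z z' : ℂ) (Θ Θ' : Fld) (ω ω' : Om) (β : P → P)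
    (π : Lab → Lab) (U : Finset P) : Prop :=
  (∀ s, ∀ B ∈ U, p.I b' z' Θ' ω' (π s) (β B) = φ (p.I b z Θ ω s B)) ∧
  (∀ s X, X ⊆ U → Conn X → p.K b' z' Θ' ω' (π s) (X.image β) = φ (p.K b z Θ ω s X)) ∧
  ∀ X σ σ', X ⊆ U → Conn X → (∀ B, σ' (β B) = (σ B).map π) →
    p.N b' z' Θ' ω' (X.image β) σ' = φ (p.N b z Θ ω X σ)

structure PreS (t0 : ℝ) (m : Measure ℝ) (p : Pre) : Prop where
  locI : ∀ b z s B, ok b 0 → B ∈ box (q.m b 0) → q.Loc0 {B} fun Θ ω => p.I b z Θ ω s B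
  locK : ∀ b z s X, ok b 0 → Pm (q.m b 0) X → q.Loc0 X fun Θ ω => p.K b z Θ ω s X
  locN : ∀ b z X σ, ok b 0 → Pm (q.m b 0) X → q.Loc0 X fun Θ ω => p.N b z Θ ω X σ
  holI : ∀ b ω s B (O : Set ℂ) (zf : ℂ → ℂ) (Θf : ℂ → Fld), DifferentiableOn ℂ zf O →
    (∀ y, DifferentiableOn ℂ (fun τ => Θf τ y) O) →
    DifferentiableOn ℂ (fun τ => p.I b (zf τ) (Θf τ) ω s B) O
  holK : ∀ b ω s X (O : Set ℂ) (zf : ℂ → ℂ) (Θf : ℂ → Fld), DifferentiableOn ℂ zf O →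
    (∀ y, DifferentiableOn ℂ (fun τ => Θf τ y) O) →
    DifferentiableOn ℂ (fun τ => p.K b (zf τ) (Θf τ) ω s X) O
  holN : ∀ b ω X σ (O : Set ℂ) (zf : ℂ → ℂ) (Θf : ℂ → Fld), DifferentiableOn ℂ zf O →
    (∀ y, DifferentiableOn ℂ (fun τ => Θf τ y) O) →
    DifferentiableOn ℂ (fun τ => p.N b (zf τ) (Θf τ) ω X σ) O
  sh : ∀ b z Θ ω (c : ℂ), ok b 0 →
    Rel p id b b z z Θ (fun y => Θ y + c) ω ω id id (box (q.m b 0))
  neg : ∀ b z Θ ω, ok b 0 → Rel p id b b z (-z) Θ (-Θ) ω (-ω) id id (box (q.m b 0))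
  cj : ∀ b Θ ω, ok b 0 → Rel p conj b b 0 0 Θ (fun y => conj (Θ y)) ω
    (fun i => if i.1 < 4 then -ω i else ω i) id id (box (q.m b 0))
  far : ∀ b z Θ ω U, ok b 0 → U ⊆ box (q.m b 0) → ¬ spec (q.m b 0) U →
    Rel p id b b 0 z Θ Θ ω ω id id U
  iso : ∀ b b' g c, ok b 0 → ok b' 0 → ∃ Ψ : Om → Om, MeasurePreserving Ψ (mu0 m) (mu0 m) ∧
    (∀ ω y, Ψ ω (4, y) = ω (4, vm g (smul q.L c) y)) ∧
    ∀ U, U ⊆ box (q.m b 0) → Mv (q.m b 0) (q.m b' 0) g c U →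
      (∀ s, ∀ B ∈ U, p.c b' (pm g c s) (fm g c B) = p.c b s B) ∧ ∀ Θ ω,
      Rel p id b b' 0 0 (Θ ∘ vm g (smul q.L c)) Θ (Ψ ω) ω (fm g c) (pm g c) U
  lam12 : p.lam 1 = p.lam 2

/-- `β1` bounds all tiles, `β2` the tiles off the sides and the neutral polymers -/
structure PreB (t0 : ℝ) (m : Measure ℝ) (p : Pre) (β1 β2 ν ρ : ℝ) (y : ℕ × ℕ → P → Om → ℝ) :
    Prop where
  lam : ∀ s, 0 ≤ p.lam s ∧ p.lam s ≤ β1 ∧ p.lam s ^ 2 ≤ β2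
  cpos : ∀ b s B, ok b 0 → B ∈ box (q.m b 0) → 0 < p.c b s B
  ccor : ∀ b s B, ok b 0 → B ∈ box (q.m b 0) → corner (q.m b 0) B →
    Real.exp (|Real.log (p.c b s B / p.c b 0 B)| + 1) ≤ ρ
  ylow : ∀ b B ω, Real.exp (q.κ * ∑ x ∈ cell q.L B, n1 (cf (zw (q.n b) ω)) x) ≤ y b B ω
  yint : ∀ b S, ok b 0 → S ⊆ box (q.m b 0) →
    Integrable (fun ω => ∏ B ∈ S, y b B ω) (mu0 m) ∧ ∫ ω, ∏ B ∈ S, y b B ω ∂mu0 m ≤ 2 ^ S.card
  bd : ∀ b z θ U v ω, ok b 0 → ‖z‖ ≤ t0 → Dir (q.n b) θ → Pm (q.m b 0) U →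
    Strip (q.n b) q.L q.h (q.L * q.h) U v →
    (∀ s, ∀ B ∈ U, ‖p.I b z (bg (q.n b) z + cf θ + v) ω s B / p.c b s B -
        q.Ih b 0 z (p.lam s) B (bg (q.n b) z + cf θ + v + cf (zw (q.n b) ω))‖ ≤
      (if deep 1 (q.m b 0) B then β2 else β1) * y b B ω *
        Real.exp (q.κ / 4 * ∑ x ∈ cell q.L B, n1 (cf θ) x)) ∧
    (∀ s X, X ⊆ U → Conn X → ‖p.K b z (bg (q.n b) z + cf θ + v) ω s X‖ ≤
      β2 * q.A⁻¹ ^ (2 * X.card) * (∏ B ∈ X, p.c b s B * y b B ω) *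
        Real.exp (q.κ / 4 * ∑ x ∈ under q.L X, n1 (cf θ) x)) ∧
    ∀ X σ, X ⊆ U → Conn X → ‖p.N b z (bg (q.n b) z + cf θ + v) ω X σ‖ ≤
      ν * q.A⁻¹ ^ (2 * X.card) * (∏ B ∈ X, p.c b 0 B * y b B ω) *
        Real.exp (q.κ / 4 * ∑ x ∈ under q.L X, n1 (cf θ) x)

structure PreC {T : Type} [TopologicalSpace T] (p : T → Pre) : Prop where
  lam : ∀ s, Continuous fun τ => (p τ).lam s
  c : ∀ b s B, Continuous fun τ => (p τ).c b s B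
  I : ∀ b Θ ω s B, Continuous fun τ => (p τ).I b 0 Θ ω s B
  K : ∀ b Θ ω s X, Continuous fun τ => (p τ).K b 0 Θ ω s X
  N : ∀ b Θ ω X σ, Continuous fun τ => (p τ).N b 0 Θ ω X σ

/-- the partition function before the first step -/
def Wpre (μ : Measure Om) (p : Pre) (b : ℕ × ℕ) (z : ℂ) (Θ : Fld) : ℂ :=
  ∫ ω, Wsum (box (q.m b 0)) (p.I b z Θ ω) (p.K b z Θ ω) (p.N b z Θ ω) ∂μ
/-- one phase factor and remainder after the last field -/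
def fin1 (x : State) (b : ℕ × ℕ) (z : ℂ) (s : Lab) : ℂ :=
  ∫ ω, W1 (box (q.m b b.2))
    (fun B => q.Ih b b.2 z (x.lam s) B (bg (q.n b) z + cf (zr (q.n b) (lev q.L b.2) ω)))
    (fun X => (x.a b z).K s X (bg (q.n b) z + cf (zr (q.n b) (lev q.L b.2) ω))) ∂PP
def finW (x : State) (b : ℕ × ℕ) (z : ℂ) : ℂ :=
  ∫ ω, q.WW b.2 x b z (bg (q.n b) z + cf (zr (q.n b) (lev q.L b.2) ω)) ∂PP
def fin2 (x : State) (b : ℕ × ℕ) (z : ℂ) : ℂ := q.finW x b z -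
  ∑ s, Complex.exp (-∑ B ∈ box (q.m b b.2), (x.a b z).d s B) * q.fin1 x b z s
end Par

end Pool.Agent.Lib.MP_9cc147_pr.Cx
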