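import Pool.Agent.Lib.MP_9cc147_pr.Cx.S2

/-! Small kit: how to use the filters of constants. -/

open scoped Classical Topology
open Filter

namespace Pool.Agent.Lib.MP_9cc147_pr.Cx

theorem fp_iff {p : Par → Prop} : (∀ᶠ q in FP, p q) ↔ Ev p := Iff.rfl

theorem odd_freq : ∃ᶠ L : ℕ in atTop, Odd L :=
  frequently_atTop.2 fun a => ⟨2 * a + 1, by omega, ⟨a, rfl⟩⟩

theorem even_freq : ∃ᶠ L : ℕ in atTop, Even L :=
  frequently_atTop.2 fun a => ⟨2 * a, by omega, ⟨a, by ring⟩⟩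

theorem fp_exists {p : Par → Prop} (h : ∀ᶠ q in FP, p q) : ∃ q, p q := by
  obtain ⟨L, ho, h1⟩ := (odd_freq.and_eventually (fp_iff.1 h)).exists
  obtain ⟨A, h2⟩ := (h1 ho).exists
  obtain ⟨κ, h3⟩ := h2.exists
  obtain ⟨h', h4⟩ := h3.exists
  obtain ⟨C, h5⟩ := h4.exists
  obtain ⟨ε, h6⟩ := h5.exists
  exact ⟨_, h6⟩

/-- `L` is odd and large -/
theorem fp_L (N : ℕ) : ∀ᶠ q in FP, Odd q.L ∧ N ≤ q.L := by
  refine fp_iff.2 ?_
  filter_upwards [eventually_ge_atTop N] with L hL ho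
  exact .of_forall fun _ => .of_forall fun _ => .of_forall fun _ => .of_forall fun _ =>
    .of_forall fun _ => ⟨ho, hL⟩

theorem fp_A (f : ℕ → ℝ) : ∀ᶠ q in FP, f q.L ≤ q.A := by
  refine fp_iff.2 (.of_forall fun L _ => ?_)
  filter_upwards [eventually_ge_atTop (f L)] with A hA
  exact .of_forall fun _ => .of_forall fun _ => .of_forall fun _ => .of_forall fun _ => hA

theorem small_ev {c : ℝ} (hc : 0 < c) : ∀ᶠ x : ℝ in 𝓝[>] 0, 0 < x ∧ x ≤ c := by
  filter_upwards [Ioc_mem_nhdsGT hc] with x hx using hx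

theorem fp_κ (f : ℕ → ℝ → ℝ) (hf : ∀ L A, 0 < f L A) :
    ∀ᶠ q in FP, 0 < q.κ ∧ q.κ ≤ f q.L q.A := by
  refine fp_iff.2 (.of_forall fun L _ => .of_forall fun A => ?_)
  filter_upwards [small_ev (hf L A)] with κ h
  exact .of_forall fun _ => .of_forall fun _ => .of_forall fun _ => h

theorem fp_h (f : ℕ → ℝ → ℝ → ℝ) : ∀ᶠ q in FP, f q.L q.A q.κ ≤ q.h := by
  refine fp_iff.2 (.of_forall fun L _ => .of_forall fun A => .of_forall fun κ => ?_)
  filter_upwards [eventually_ge_atTop (f L A κ)] with h hh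
  exact .of_forall fun _ => .of_forall fun _ => hh

theorem fp_C (f : ℕ → ℝ → ℝ → ℝ → ℝ) : ∀ᶠ q in FP, f q.L q.A q.κ q.h ≤ q.C := by
  refine fp_iff.2 (.of_forall fun L _ => .of_forall fun A => .of_forall fun κ =>
    .of_forall fun h => ?_)
  filter_upwards [eventually_ge_atTop (f L A κ h)] with C hC
  exact .of_forall fun _ => hC

theorem fp_ε (f : ℕ → ℝ → ℝ → ℝ → ℝ → ℝ) (hf : ∀ L A κ h C, 0 < f L A κ h C) :
    ∀ᶠ q in FP, 0 < q.ε ∧ q.ε ≤ f q.L q.A q.κ q.h q.C := by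
  refine fp_iff.2 (.of_forall fun L _ => .of_forall fun A => .of_forall fun κ =>
    .of_forall fun h => .of_forall fun C => ?_)
  filter_upwards [small_ev (hf L A κ h C)] with ε h using h

variable {p p' : ℝ → ℕ → ℝ → ℝ → ℝ → Prop}

theorem EvM.mono (h : EvM p) (hp : ∀ η R g B t, p η R g B t → p' η R g B t) : EvM p' :=
  Eventually.mono h fun η h => h.mono fun R h e => (h e).mono fun g h => h.mono fun B h =>
    h.mono fun t h => hp η R g B t h

theorem EvM.and (h : EvM p) (h' : EvM p') : EvM fun η R g B t => p η R g B t ∧ p' η R g B t :=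
  (Eventually.and h h').mono fun _ h => (h.1.and h.2).mono fun _ h e =>
    ((h.1 e).and (h.2 e)).mono fun _ h => (h.1.and h.2).mono fun _ h => h.1.and h.2

theorem EvM.exists (h : EvM p) : ∃ η R g B t, p η R g B t := by
  obtain ⟨η, h1⟩ := Eventually.exists h
  obtain ⟨R, he, h2⟩ := (even_freq.and_eventually h1).exists
  obtain ⟨g, h3⟩ := (h2 he).exists
  obtain ⟨B, h4⟩ := h3.exists
  obtain ⟨t, h5⟩ := h4.exists
  exact ⟨_, _, _, _, _, h5⟩

theorem evm_η {c : ℝ} (hc : 0 < c) : EvM fun η _ _ _ _ => 0 < η ∧ η ≤ c := by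
  filter_upwards [small_ev hc] with η h
  exact .of_forall fun _ _ => .of_forall fun _ => .of_forall fun _ => .of_forall fun _ => h

theorem evm_R (f : ℝ → ℝ) : EvM fun η R _ _ _ => Even R ∧ f η ≤ R := by
  refine .of_forall fun η => ?_
  filter_upwards [tendsto_natCast_atTop_atTop.eventually_ge_atTop (f η)] with R h e
  exact .of_forall fun _ => .of_forall fun _ => .of_forall fun _ => ⟨e, h⟩

theorem evm_gap (f : ℝ → ℕ → ℝ) : EvM fun η R g _ _ => f η R ≤ g := by
  refine .of_forall fun η => .of_forall fun R _ => ?_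
  filter_upwards [eventually_ge_atTop (f η R)] with g h
  exact .of_forall fun _ => .of_forall fun _ => h

theorem evm_B (f : ℝ → ℕ → ℝ → ℝ) : EvM fun η R g B _ => f η R g ≤ B := by
  refine .of_forall fun η => .of_forall fun R _ => .of_forall fun g => ?_
  filter_upwards [eventually_ge_atTop (f η R g)] with B h
  exact .of_forall fun _ => h

theorem evm_t (f : ℝ → ℕ → ℝ → ℝ → ℝ) (hf : ∀ η R g B, 0 < f η R g B) :
    EvM fun η R g B t => 0 < t ∧ t ≤ f η R g B := by
  refine .of_forall fun η => .of_forall fun R _ => .of_forall fun g => .of_forall fun B => ?_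
  filter_upwards [small_ev (hf η R g B)] with t h using h

end Pool.Agent.Lib.MP_9cc147_pr.Cx
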