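import Pool.Agent.Lib.MP_9cc147_pr.Cx.S2
import Pool.Agent.Lib.MP_9cc147_pr.U.FKit

/-! From `Main` to the final form of the statement. -/

open Filter
open scoped Topology

namespace Pool.Agent.Lib.MP_9cc147_pr.Cx

theorem last_nolim {f : ℕ → ℝ} {a b : ℝ} (hab : a < b) (ha : ∃ᶠ n in atTop, f n ≤ a)
    (hb : ∃ᶠ n in atTop, b ≤ f n) :
    ¬ ∃ c : EReal, Tendsto (fun n => ((f n : ℝ) : EReal)) atTop (𝓝 c) := by
  rintro ⟨c, hc⟩
  have h1 : c ≤ (a : EReal) :=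
    isClosed_Iic.mem_of_frequently_of_tendsto (ha.mono fun n h => EReal.coe_le_coe_iff.2 h) hc
  have h2 : (b : EReal) ≤ c :=
    isClosed_Ici.mem_of_frequently_of_tendsto (hb.mono fun n h => EReal.coe_le_coe_iff.2 h) hc
  exact absurd (EReal.coe_le_coe_iff.1 (h2.trans h1)) (not_le.2 hab)

theorem last (h : Main) : ∃ U : ℝ → ℝ, ContDiff ℝ ((⊤ : ℕ∞) : WithTop ℕ∞) U ∧
    (∀ x, U (-x) = U x) ∧ (∃ α : ℝ, 0 < α ∧ Tendsto (fun x => U x / x ^ α) atTop atTop) ∧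
    ∃ M₀ : ℝ, 0 < M₀ ∧ ∀ M : ℝ, M₀ < M →
      (∀ n : ℕ, Summable (weight U M n) ∧
        Summable fun m => (m (Fin.last n, Fin.last n) : ℝ) ^ 2 * weight U M n m) ∧
      ∃ a b : ℝ, a < b ∧
        (∃ᶠ n : ℕ in atTop, (∑' m, (m (Fin.last n, Fin.last n) : ℝ) ^ 2 * weight U M n m) /
          (∑' m, weight U M n m) / Real.log (n + 1) ≤ a) ∧
        ∃ᶠ n : ℕ in atTop, b ≤ (∑' m, (m (Fin.last n, Fin.last n) : ℝ) ^ 2 * weight U M n m) /
          (∑' m, weight U M n m) / Real.log (n + 1) := by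
  obtain ⟨U, h1, h2, h3, M0, hM0, h4⟩ := h
  refine ⟨U, h1, h2, ⟨1 / 4, by norm_num, h3⟩, M0, hM0, fun M hM => ⟨fun n => ?_, ?_⟩⟩
  · have e : weight U M n = wt (n := n) fun k => U (k / M) := by
      funext m
      have e1 : edges n = Ed n := by
        ext e; simp [edges, mem_Ed]
      unfold weight wt
      rw [e1]
      congr
    rw [e]
    exact AllU.F.Kit.wt_sum (n := n)
      (grow_of h1.continuous h2 (by norm_num : (0 : ℝ) < 1 / 4) h3 (hM0.trans hM))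
  · obtain ⟨a, b, hab, ha, hb⟩ := h4 M hM
    exact ⟨a, b, hab, ha.mono fun n h => h.2.2, hb.mono fun n h => h.2.2⟩

end Pool.Agent.Lib.MP_9cc147_pr.Cx
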