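import Pool.Agent.Lib.MP_9cc147_pr.Cx.D4

/-! Statements of the modules A (polymer algebra), Z (noise), U (background), H, P, Du. -/

open scoped Classical Topology ComplexConjugate
open Finset MeasureTheory ProbabilityTheory Filter

noncomputable section
namespace Pool.Agent.Lib.MP_9cc147_pr.Cx

/-- neutral polymers, polymers of the second class and number of atoms of a local configuration -/
def pcs (R : Finset P) (c : P → Sf) : Finset (Finset P) :=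
  univ.biUnion fun s => comps (pol R (red c) s)
def nat (R : Finset P) (c : P → Sf) : ℕ :=
  (kind R c 1).card + (pcs R c).card + (comps (bad R (red c))).card
def live (s0 : ℕ) (R : Finset P) (c : P → Sf) : Prop := ∀ X ∈ pcs R c, fw s0 c X ≠ 0
def aw (R : Finset P) (a p b G : ℝ) (c : P → Sf) : ℝ :=
  a ^ (kind R c 1).card * (∏ X ∈ pcs R c, p * G⁻¹ ^ X.card) *
    ∏ X ∈ comps (bad R (red c)), b * G⁻¹ ^ X.card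
/-- one atom, a large neutral polymer -/
def big (s0 : ℕ) (R : Finset P) (c : P → Sf) : Prop := nat R c = 1 ∧ ∃ X ∈ pcs R c, s0 < X.card

def S_reb : Prop := ∀ (L s0 : ℕ) (D : Finset P) (I T M : Lab → P → ℂ) (K Kh : Lab → Finset P → ℂ)
  (N : Finset P → (P → Option Lab) → ℂ), 2 * s0 + 1 ≤ L →
  (∀ s, ∀ B ∈ under L D, I s B = T s B * (1 + M s B)) →
  (∀ s X, X ⊆ under L D → K s X = Kh s X * ∏ B ∈ X, T s B) →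
  Wsum (under L D) I K N = Wsum D (fun s B' => ∏ B ∈ cell L B', T s B)
    (fun s U => L0 L s0 D U T M Kh s +
      if (bdry D U).Nonempty then L1 L s0 D U T M Kh N (cst D U s) else 0)
    (fun U σ => if Nn D U σ then L1 L s0 D U T M Kh N σ else 0)

def S_w12 : Prop := ∀ (R : Finset P) (I : Lab → P → ℂ) (K : Lab → Finset P → ℂ)
  (N : Finset P → (P → Option Lab) → ℂ), Conn R →
  Wsum R I K N = ∑ s, W1 R (I s) (K s) + W2 R I K N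

def S_tra : Prop := ∀ (L s0 : ℕ) (D D' U : Finset P) (β β' : P ≃ P) (π : Lab ≃ Lab) (φ : ℂ →+* ℂ)
  (T M T' M' : Lab → P → ℂ) (K K' : Lab → Finset P → ℂ) (N N' : Finset P → (P → Option Lab) → ℂ),
  2 * s0 + 1 ≤ L → U ⊆ D → (∀ a b, nr 1 (β a) (β b) ↔ nr 1 a b) →
  (∀ a b, nr 1 (β' a) (β' b) ↔ nr 1 a b) → (∀ a, par L (β a) = β' (par L a)) →
  near 1 D' (U.image β') = (near 1 D U).image β' →
  (∀ s, ∀ B ∈ under L U, T' (π s) (β B) = φ (T s B) ∧ M' (π s) (β B) = φ (M s B)) →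
  (∀ s X, Conn X → X ⊆ near s0 (reg L D U) (under L U) → K' (π s) (X.image β) = φ (K s X)) →
  (∀ X σ σ', Conn X → X ⊆ under L U → (∀ B, σ' (β B) = (σ B).map π) →
    N' (X.image β) σ' = φ (N X σ)) →
  (∀ s, L0 L s0 D' (U.image β') T' M' K' (π s) = φ (L0 L s0 D U T M K s)) ∧
  ∀ σ σ', (∀ B, σ' (β' B) = (σ B).map π) →
    L1 L s0 D' (U.image β') T' M' K' N' σ' = φ (L1 L s0 D U T M K N σ)

/-- shape of the local configurations, and the terms with one small atom -/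
def S_one : Prop := ∀ (L s0 : ℕ) (D U : Finset P), 2 * s0 + 1 ≤ L → U ⊆ D → U.Nonempty →
  (∀ c ∈ loc L s0 D U, live s0 (reg L D U) c → 1 ≤ nat (reg L D U) c ∧
    kind (reg L D U) c 1 ⊆ under L U ∧ bad (reg L D U) (red c) ⊆ under L U ∧
    (∀ X ∈ pcs (reg L D U) c, Conn X ∧ X ⊆ near s0 (reg L D U) (under L U)) ∧
    (∀ X ∈ pcs (reg L D U) c ∪ comps (bad (reg L D U) (red c)), Conn X ∧
      ∀ Y ∈ pcs (reg L D U) c ∪ comps (bad (reg L D U) (red c)), X ≠ Y →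
        ∀ a ∈ X, ∀ b ∈ Y, ¬ nr 1 a b)) ∧
  ∀ (T M : Lab → P → ℂ) (K : Lab → Finset P → ℂ) (s : Lab),
    ∑ c ∈ (loc0 L s0 D U s).filter (fun c => nat (reg L D U) c = 1 ∧ ¬ big s0 (reg L D U) c),
      lw L s0 D U T M K (fun _ _ => 0) c = if U.card = 1 then (∏ B ∈ under L U, T s B) *
        ∑ B ∈ under L U, (M s B + ∑ X ∈ (under L D).powerset.filter
          (fun X => Conn X ∧ B ∈ X ∧ X.card ≤ s0), K s X / X.card) else 0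

def S_cnt : Prop := ∀ᶠ q in FP, ∀ (L s0 : ℕ) (G : ℝ),
  (L = q.L ∧ s0 = 4 ∧ G = q.A / 16 ∨ L = 1 ∧ s0 = 0 ∧ G = q.A ^ 2 / 16) →
  ∀ (m : ℕ) (U : Finset P) (a p b : ℝ), q.L ≤ m → Pm m U → 0 ≤ a → 0 ≤ p → 0 ≤ b →
  a ≤ q.C * q.ε → p ≤ q.C * q.ε → b ≤ q.C * q.ε →
  let R := reg L (box m) U
  (∀ s, ∑ c ∈ (loc0 L s0 (box m) U s).filter (fun c => live s0 R c ∧ big s0 R c), aw R a p b G c ≤
    p / 1000 * (16 * q.A)⁻¹ ^ U.card) ∧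
  (∀ s, ∑ c ∈ (loc0 L s0 (box m) U s).filter (fun c => live s0 R c ∧ 2 ≤ nat R c),
    aw R a p b G c ≤ Real.sqrt q.C * (a + p) ^ 2 * (16 * q.A)⁻¹ ^ U.card) ∧
  ∀ σ, ∑ c ∈ (loc1 L s0 (box m) U σ).filter (live s0 R), aw R a p b G c ≤
    (if Nn (box m) U σ then b / 1000 else Real.sqrt q.C * b) * (16 * q.A)⁻¹ ^ U.card

/-- `f` depends only on the noise at the points of `S` -/
def Dep (S : Set P) (f : Om → ℂ) : Prop :=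
  Measurable f ∧ ∀ ω ω', (∀ i, ∀ p ∈ S, ω (i, p) = ω' (i, p)) → f ω = f ω'
def S_ind : Prop := ∀ (m : Measure ℝ) [IsProbabilityMeasure m] (ι : Type) (J : Finset ι)
  (S : ι → Set P) (f : ι → Om → ℂ), (∀ i ∈ J, Dep (S i) (f i) ∧ Integrable (f i) (mu0 m)) →
  (∀ i ∈ J, ∀ k ∈ J, i ≠ k → Disjoint (S i) (S k)) →
  Integrable (fun ω => ∏ i ∈ J, f i ω) (mu0 m) ∧
    ∫ ω, ∏ i ∈ J, f i ω ∂mu0 m = ∏ i ∈ J, ∫ ω, f i ω ∂mu0 m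

def S_zel : Prop := PP = mu0 (gaussianReal 0 1) ∧ ∀ L n j : ℕ, 100 ≤ L → 1 ≤ n →
  (∀ ω, Dir n (zeta L n j ω) ∧ Dir n (zw n ω) ∧ Dir n (zr n j ω)) ∧
  (Measurable (zeta L n j) ∧ Measurable (zw n) ∧ Measurable (zr n j)) ∧
  (∀ ω, zeta L n j (-ω) = -zeta L n j ω ∧ zw n (-ω) = -zw n ω ∧ zr n j (-ω) = -zr n j ω) ∧
  (∀ ω ω', ∀ p ∈ sqr n, (∀ i y, nr (L ^ (j + 1) / 8) p y → ω (i, y) = ω' (i, y)) →
    zeta L n j ω p = zeta L n j ω' p) ∧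
  ∀ (m : Measure ℝ) [IsProbabilityMeasure m], m.map (fun x => -x) = m →
    MeasurePreserving (fun ω : Om => -ω) (mu0 m) (mu0 m) ∧
    MeasurePreserving (fun (ω : Om) i => if i.1 < 4 then -ω i else ω i) (mu0 m) (mu0 m)

def S_ziso : Prop := ∀ (q : Par) (j : ℕ) (g : Sy) (c : P), 100 ≤ q.L →
  MeasurePreserving (fun (ω : Om) i => ω (i.1, vm g (smul (q.l j) c) i.2)) PP PP ∧
  ∀ b b' U, Par.ok b j → Par.ok b' j → U ⊆ box (q.m b j) → Mv (q.m b j) (q.m b' j) g c U →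
    ∀ ω, ∀ p ∈ nbs (q.l j) U ∩ sqr (q.n b),
      vm g (smul (q.l j) c) p ∈ sqr (q.n b') ∧
      zeta q.L (q.n b') j ω (vm g (smul (q.l j) c) p) =
        zeta q.L (q.n b) j (fun i => ω (i.1, vm g (smul (q.l j) c) i.2)) p

def Mom (μ : Measure Om) (f : Om → ℝ) (a : ℝ) : Prop :=
  Integrable (fun ω => Real.exp (f ω)) μ ∧ ∫ ω, Real.exp (f ω) ∂μ ≤ a
def S_zmom : Prop := ∀ᶠ q in FP, ∀ b j, Par.ok b j →
  (∀ S ⊆ box (q.m b j), Mom PP (fun ω => q.L * q.κ *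
      ∑ B ∈ S, N0 (q.l j) (cf (zeta q.L (q.n b) j ω)) (nb (q.l j) B)) (2 ^ S.card)) ∧
  Mom PP (fun ω => q.L * q.κ * ∑ B ∈ box (q.m b b.2),
      Nf (q.l b.2) (cf (zr (q.n b) (lev q.L b.2) ω)) (nb (q.l b.2) B)) 2 ∧
  ∀ (m : Measure ℝ) [IsProbabilityMeasure m], ∀ S ⊆ box (q.m b 0), Mom (mu0 m)
    (fun ω => q.L * q.κ * ∑ x ∈ under q.L S, n1 (cf (zw (q.n b) ω)) x) ((5 / 4) ^ S.card)

/-- mean white noise energy of a tile -/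
def E0 (q : Par) (μ : Measure Om) (b : ℕ × ℕ) (B : P) : ℂ :=
  ∫ ω, En (cf (zw (q.n b) ω)) (cell q.L B) ∂μ
def S_e0 : Prop := ∀ (q : Par) (m : Measure ℝ) [IsProbabilityMeasure m] b B, 100 ≤ q.L →
  Par.ok b 0 → B ∈ box (q.m b 0) → (E0 q (mu0 m) b B).im = 0 ∧ ‖E0 q (mu0 m) b B‖ ≤ q.L ^ 2 ∧
  E0 q (mu0 m) b B = E0 q PP b B ∧ ∀ b' g c, Par.ok b' 0 → Mv (q.m b 0) (q.m b' 0) g c {B} →
    E0 q (mu0 m) b' (fm g c B) = E0 q (mu0 m) b B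

def S_zchar : Prop := ∀ (L n J : ℕ) (ϑ : P → ℝ) (Θ : P → ℝ), 1 ≤ n → Dir n ϑ →
  Tot L n J (fun Ξ => ∫ ω, Complex.exp (Complex.I * ∑ p ∈ inn n, Lap ϑ p * (Ξ p + zw n ω p)) ∂PP)
    (cf Θ) = Complex.exp (Complex.I * (∑ p ∈ inn n, Lap ϑ p * Θ p : ℝ) -
      (∑ p ∈ inn n, Lap ϑ p * ϑ p : ℝ) / 2)

/-- the Gaussian weight after the white noise -/
def VG (n : ℕ) (mu : ℝ) (Θ : Fld) : ℂ :=
  ∫ ω, Complex.exp (-(mu / 2 : ℂ) * En (Θ + cf (zw n ω)) (box n)) ∂PP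
def S_zgau : Prop := ∀ (L n J : ℕ) (mu : ℝ), 2 ≤ n → 0 ≤ mu →
  (∀ z : ℂ, Tot L n J (VG n mu) (bg n z) = Complex.exp (-(mu / 2 : ℂ) * z ^ 2 * Rt n) *
    ((1 + mu) ^ (-((n : ℝ) - 1) ^ 2 / 2) : ℝ)) ∧
  ∃ V : (P → ℝ) → ℝ, 0 < V 0 ∧ ∀ θ, Dir n θ → Ex L n (VG n mu) J (cf θ) = V θ ∧ V θ ≤ V 0 ∧
    Real.exp (-(mu / 2) * ∑ x ∈ box n, n1 (cf θ) x) * V 0 ≤ V θ

def S_u : Prop := ∃ Cu : ℝ, ∀ n : ℕ, 2 ≤ n → IsU n (uu n) ∧ (∀ p, 0 ≤ uu n p ∧ uu n p ≤ 1) ∧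
  (∀ θ, Dir n θ → ∑ x ∈ box n, ∑ d, dg (uu n) x d * dg θ x d = 0) ∧
  Real.log n / 8 ≤ Rt n ∧ Rt n ≤ Cu * (1 + Real.log n) ∧ Rt (2 * n) ≤ Rt n + Cu ∧
  ∀ l m : ℕ, n = l * m → 100 ≤ l → 2 ≤ m →
    (∀ c : ℝ, c = 0 ∨ c = 1 → ∃ w : P → ℝ, (∀ p, |w p| ≤ 1) ∧ (∀ p ∈ sqr n, w p = uu n p - c) ∧
      ∀ B ∈ box m, (if c = 0 then B.1 ≠ 0 ∧ B.2 ≠ m - 1 else B.2 ≠ 0 ∧ B.1 ≠ m - 1) →
        Nf l (cf w) (nb l B) ≤ Cu ∧ ∀ p ∈ nb l B, p ∈ ring n → w p = 0) ∧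
    ∀ B, ab m B → ∀ v : Fld, (∀ p ∈ fat l 0 B, p ∈ ring n → v p = 0) →
      ‖∑ x ∈ cell l B, ∑ d, (dg (uu n) x d : ℝ) * dg v x d‖ ^ 2 ≤ Cu * ∑ x ∈ cell l B, n1 v x

def S_h : Prop := ∃ h, IsH h
def S_w : Prop := ∀ o : Mod, IsH o.h → 0 < o.η → 0 < o.Bw → (o.a, o.x1) ∈ rect →
  IsFiniteMeasure o.nu ∧ (∀ x, 0 < wN o.nu x) ∧ ContDiff ℝ ((⊤ : ℕ∞) : WithTop ℕ∞) (fun x => -Real.log (wN o.nu x)) ∧
  (∀ x, wN o.nu (-x) = wN o.nu x) ∧ o.nu.map (fun x => -x) = o.nu ∧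
  Tendsto (fun x => -Real.log (wN o.nu x) / x ^ (1 / 4 : ℝ)) atTop atTop ∧
  (∃ B, BL B (wN o.nu)) ∧ (∃ c K : ℝ, 0 < c ∧ ∀ x, wN o.nu x ≤ K * Real.exp (-c * √|x|)) ∧
  ∀ y : ℝ, nuh o.nu y = ∑ w ∈ Wl o.R, o.xw w * Complex.exp (Complex.I * o.H w * y - o.eta w * y ^ 2 / 2) *
    (∫ x, o.hB x * Complex.exp (Complex.I * x * y)) ^ 2

abbrev V (n : ℕ) := Fin (n + 1) × Fin (n + 1)
def edges (n : ℕ) : Finset (V n × V n) :=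
  univ.filter fun e => (e.2.1.val = e.1.1.val + 1 ∧ e.2.2.val = e.1.2.val) ∨
    (e.2.1.val = e.1.1.val ∧ e.2.2.val = e.1.2.val + 1)
def weight (U : ℝ → ℝ) (M : ℝ) (n : ℕ) (m : V n → ℤ) : ℝ :=
  if m (0, 0) = 0 then Real.exp (-∑ e ∈ edges n, U (((m e.1 - m e.2 : ℤ) : ℝ) / M)) else 0
def pin {n : ℕ} (φ : {x : V n // x ≠ (0, 0)} → ℝ) (x : V n) : ℝ :=
  if h : x = (0, 0) then 0 else φ ⟨x, h⟩
def wR (w : ℝ → ℝ) (n : ℕ) (φ : {x : V n // x ≠ (0, 0)} → ℝ) : ℝ :=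
  ∏ e ∈ edges n, w (pin φ e.1 - pin φ e.2)
def S_poi : Prop := ∀ (w : ℝ → ℝ) (B : ℝ), BL B w → Continuous w → (∀ x, 0 < w x) →
  (∃ c K : ℝ, 0 < c ∧ ∀ x, w x ≤ K * Real.exp (-c * √|x|)) →
  ∃ M0 : ℝ, 0 < M0 ∧ ∀ M, M0 < M → ∀ n : ℕ, 1 ≤ n → Integrable (wR w n) ∧
    Summable (weight (fun x => -Real.log (w x)) M n) ∧ ∃ c : ℝ, 0 < c ∧ ∀ t : ℝ, |t| ≤ 1 →
      ∑' m, weight (fun x => -Real.log (w x)) M n m * Real.cos (t * m (Fin.last n, Fin.last n) / M) =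
        c * ∫ φ, wR w n φ * Real.cos (t * pin φ (Fin.last n, Fin.last n))
def S_dual : Prop := ∀ (ν : Measure ℝ) [IsFiniteMeasure ν] (L J n : ℕ), 1 ≤ n →
  ν.map (fun x => -x) = ν → ∃ c : ℝ, 0 < c ∧ ∀ t : ℝ,
    ((∫ φ, wR (wN ν) n φ * Real.cos (t * pin φ (Fin.last n, Fin.last n)) : ℝ) : ℂ) =
      (c * Real.exp (-t ^ 2 * (Rt (n + 1) - 1) / 2) : ℝ) *
        Tot L (n + 1) J (W0 ν (n + 1)) (bg (n + 1) t)

end Pool.Agent.Lib.MP_9cc147_pr.Cx
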