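import Pool.Agent.Lib.MP_9cc147_pr.Cx.S1

/-! Statements of the modules Pe (counting), Sc (scale 0), Rg (one step), Fl (the flow). -/

open scoped Classical Topology ComplexConjugate
open Finset MeasureTheory ProbabilityTheory Filter

noncomputable section
namespace Pool.Agent.Lib.MP_9cc147_pr.Cx

/-- tiles of `X` that carry heavy noise -/
def hvy (n L : ℕ) (ω : Om) (X : Finset P) : Finset P :=
  X.filter fun T => ∃ e ∈ hes n, e.1 ∈ cell L T ∧ ω (e.2.val, e.1) ≠ 0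
/-- gain at the corner sites of the box inside `S` in phase `s` -/
def cor (n : ℕ) (S : Finset P) (s : Lab) : ℝ := ∑ x ∈ S.filter (corner n), ((typ s x : ℝ) - 1) / 4
def S_pei : Prop := ∀ᶠ L : ℕ in atTop, ∃ Λ : ℝ, 1 ≤ Λ ∧ ∀ R m : ℕ, 1 ≤ R → L ^ 2 ≤ m →
  (∀ (ω : Om) (X : Finset P) (σ : P → Option Lab), Pm m X →
    let Z := ∑ δ ∈ adm R (L * m) L m ω X σ, (2 * R : ℝ) ^ (-20 * ((vort (L * m) δ).card : ℝ))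
    let E := nexp (L * m) L X σ - ((X.card : ℝ) - 10 * (hvy (L * m) L ω X).card) / 10 ^ 5
    (∀ s, (bdry (box m) X).Nonempty → σ = cst (box m) X s →
      Z ≤ Λ ^ X.card * (2 * R : ℝ) ^ (E + cor (L * m) (under L X) s)) ∧
    (Nn (box m) X σ → Lc (box m) X σ → Z ≤ Λ ^ X.card * (2 * R : ℝ) ^ (E - 5))) ∧
  ∀ s, ∀ T ∈ box m, ((pur R (L * m) L 0 s T).card : ℝ) ≤
    Λ * (2 * R : ℝ) ^ (nexp (L * m) L {T} (fun _ => some s) + cor (L * m) (cell L T) s)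

/-- a pure tile determines its phase and its labels -/
def S_uni : Prop := ∀ (R n L : ℕ) (T : P) (s s' : Lab) (a a' : P → Gp R) (ω ω' : Om) (δ : Form R),
  20 ≤ L → cell L T ⊆ box n → pureOn n L s a ω δ {T} → pureOn n L s' a' ω' δ {T} →
  s = s' ∧ ∀ x ∈ cell L T, a x = a' x

def Mod.mk' (η : ℝ) (R : ℕ) (gap Bw : ℝ) (h : ℝ → ℝ) (τ : rect) : Mod :=
  ⟨η, R, gap, Bw, τ.1.1, τ.1.2, h⟩
def Mod.bb (o : Mod) : ℝ := Real.log (1 / 2 + o.x1 ^ 3 / 2 + o.x2 ^ 3 / 4)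
/-- sites of weight 2 of a tile, off and on the sides of the box -/
def nbe (n L : ℕ) (s : Lab) (T : P) (side : Prop) : ℕ :=
  ((cell L T).filter fun x => typ s x = 2 ∧ (deep 1 n x ↔ ¬ side)).card

def S_preS : Prop := ∀ (q : Par) (o : Mod) (t0 t : ℝ), 100 ≤ q.L → Odd q.L → IsH o.h → 0 < o.Bw →
  IsProbabilityMeasure o.mh ∧ o.mh.map (fun x => -x) = o.mh ∧ q.PreS t0 o.mh (o.pre q t)
def S_preC : Prop := ∀ (q : Par) η R gap Bw h t,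
  Par.PreC fun τ : rect => (Mod.mk' η R gap Bw h τ).pre q t
def S_preB : Prop := ∀ h, IsH h → ∀ᶠ q in FP, EvM fun η R gap Bw t0 => t0 ≤ 1 ∧ ∃ y, ∀ (τ : rect) (t : ℝ),
  t ≠ 0 → q.PreB t0 (Mod.mk' η R gap Bw h τ).mh ((Mod.mk' η R gap Bw h τ).pre q t)
    (q.C * η) (q.C * η ^ 2) ((2 * R : ℝ) ^ (-4 : ℝ)) (q.C * (2 * R : ℝ) ^ (1 / 4 : ℝ)) y
def S_cp : Prop := ∀ᶠ q in FP, EvM fun η R gap Bw _ => ∀ h (τ : rect) b, Par.ok b 0 →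
  ∀ s, ∀ T ∈ box (q.m b 0), let o := Mod.mk' η R gap Bw h τ
    if corner (q.m b 0) T then
      |Real.log (o.cp (q.n b) q.L s T) - cor (q.n b) (cell q.L T) s * Real.log o.r| ≤
        Real.log q.C / 4
    else |Real.log (o.cp (q.n b) q.L s T) - (nbe (q.n b) q.L s T False * o.a +
      nbe (q.n b) q.L s T True * o.bb)| ≤ η
def S_pid : Prop := ∀ (q : Par) (o : Mod) (t z : ℝ) b θ, 100 ≤ q.L → IsH o.h → 0 < o.Bw → 0 < o.η →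
  o.η ≤ 1 / 2 → 1 ≤ o.R → (o.a, o.x1) ∈ rect → t ≠ 0 → (z = t ∨ z = 0) → Par.ok b 0 →
  Dir (q.n b) θ → W0 o.nu (q.n b) (bg (q.n b) z + cf θ) = (o.r ^ (q.n b) ^ 2 : ℝ) *
    q.Wpre (mu0 o.mh) (o.pre q t) b z (bg (q.n b) z + cf θ)
/-- the data at `z = 0` do not depend on `t` -/
def S_t0 : Prop := ∀ (q : Par) (o : Mod) (t t' : ℝ) (j : ℕ),
  (o.fl q t j).lam = (o.fl q t' j).lam ∧ ∀ b, (o.fl q t j).a b 0 = (o.fl q t' j).a b 0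
def S_gpre : Prop := ∀ᶠ q in FP, (Par.PreC fun τ : ℝ => q.gPre τ) ∧ ∃ y, ∀ t0 mu : ℝ, 0 ≤ mu →
  q.PreS t0 (gaussianReal 0 1) (q.gPre mu) ∧ ∀ β, mu ≤ β →
    q.PreB t0 (gaussianReal 0 1) (q.gPre mu) β (β ^ 2) 0 3 y

def zero : State := ⟨0, fun _ _ => ⟨0, 0, 0⟩⟩
def intr (m : ℕ) : Finset P := (box m).filter (deep 1 m)

/-- the data at scale 0 -/
def S_init : Prop := ∀ᶠ q in FP, ∀ (t0 : ℝ) (m : Measure ℝ) [IsProbabilityMeasure m] (p : Par.Pre)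
  (β1 β2 ν ρ : ℝ) y, 0 < t0 → t0 ≤ 1 → m.map (fun x => -x) = m → q.PreS t0 m p →
  q.PreB t0 m p β1 β2 ν ρ y → 0 ≤ β2 → β2 ≤ β1 → β1 ≤ q.ε → 0 ≤ ν → 1 ≤ ρ → ν * ρ ^ 8 ≤ β2 →
  q.Str t0 0 (q.init (mu0 m) p) ∧ q.Bnd t0 0 (q.init (mu0 m) p) (q.C * β1) ν ρ ∧
  (∀ s b, Par.ok b 0 → q.Dif t0 0 (q.init (mu0 m) p) zero s b (intr (q.m b 0)) (q.C * β2)) ∧
  (β1 ^ 2 ≤ β2 → (∀ b z Θ ω s B, p.I b z Θ ω s B = (q.gPre (p.lam s)).I b z Θ ω s B) →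
    (∀ b s B, p.c b s B = 1) →
    ∀ s b, Par.ok b 0 → q.Dif t0 0 (q.init (mu0 m) p) zero s b (box (q.m b 0)) (q.C * β2)) ∧
  ∀ b z θ, Par.ok b 0 → ‖z‖ ≤ t0 → Dir (q.n b) θ →
    (∀ s, ∀ B ∈ box (q.m b 0), q.d0 (mu0 m) p b s B = q.D0 (mu0 m) p b s B) →
    q.Wpre (mu0 m) p b z (bg (q.n b) z + cf θ) =
      Complex.exp (-∑ B ∈ box (q.m b 0), q.e0 (mu0 m) p b 0 B) *
        q.WW 0 (q.init (mu0 m) p) b z (bg (q.n b) z + cf θ)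
def S_initC : Prop := ∀ᶠ q in FP, ∀ (T : Type) [TopologicalSpace T] [FirstCountableTopology T]
  (t0 : ℝ) (m : Measure ℝ) [IsProbabilityMeasure m] (p : T → Par.Pre) (β1 β2 ν ρ : ℝ) y,
  0 < t0 → t0 ≤ 1 → (∀ τ, q.PreS t0 m (p τ) ∧ q.PreB t0 m (p τ) β1 β2 ν ρ y) → 0 ≤ β2 → β2 ≤ β1 →
  β1 ≤ q.ε → 0 ≤ ν → 1 ≤ ρ → ν * ρ ^ 8 ≤ β2 → Par.PreC p → q.Cont 0 fun τ => q.init (mu0 m) (p τ)

/-- standing assumptions on a state -/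
structure Par.Good (q : Par) (t0 : ℝ) (j : ℕ) (x : State) (α ν ρ : ℝ) : Prop where
  t : 0 < t0 ∧ t0 ≤ 1
  str : q.Str t0 j x
  bnd : q.Bnd t0 j x α ν ρ
  a : 0 ≤ α ∧ α ≤ q.ε
  n : 0 ≤ ν ∧ 1 ≤ ρ ∧ ν * ρ ^ 8 ≤ q.ε

def Par.ref (q : Par) : Finset P := near 4 (box (q.L ^ 2)) {q.Bc, q.Bc + (1, 0)}
def S_ee : Prop := ∀ᶠ q in FP, ∀ t0 j x y α ν ρ ν' ρ' s (δ : ℝ), q.Good t0 j x α ν ρ →
  q.Good t0 j y α ν' ρ' → 0 ≤ δ →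
  (q.Dif t0 j x y s (1, j + 1) q.ref δ →
    |q.dl j ((x.a (1, j + 1) 0).K s) - q.dl j ((y.a (1, j + 1) 0).K s)| ≤ δ) ∧
  ∀ b z, ∀ B ∈ box (q.m b j), Par.ok b (j + 1) → ‖z‖ ≤ t0 →
    q.Dif t0 j x y s b (near 4 (box (q.m b j)) {B}) δ →
    ‖q.e j x b z s B - q.e j y b z s B‖ ≤ q.C * (δ + |x.lam s - y.lam s|) ∧
    ‖q.xt b j z (q.lam' j x s) B - q.xt b j z (q.lam' j y s) B‖ ≤
      q.C * |q.lam' j x s - q.lam' j y s|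
/-- symmetries of the extracted constants -/
def S_esy : Prop := ∀ᶠ q in FP, ∀ t0 j x α ν ρ, q.Good t0 j x α ν ρ →
  (∀ b s, ∀ B ∈ box (q.m b j), Par.ok b (j + 1) → (q.e j x b 0 s B).im = 0 ∧
    Hz t0 (fun z => q.et j x b z s B) ∧ (∀ z, q.et j x b (-z) s B = q.et j x b z s B) ∧
    ∀ z, ¬ ab (q.m b (j + 1)) (par q.L B) → q.et j x b z s B = q.e j x b 0 s B) ∧
  (∀ b z s, ∀ B ∈ box (q.m b j), Par.ok b (j + 1) →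
    (∀ B', ab (q.m b j) B' → ¬ nr 5 B B') → q.e j x b z s B = q.e j x b 0 s B) ∧
  ∀ b b' g c s, ∀ B ∈ box (q.m b j), Par.ok b j → Par.ok b' j →
    Mv (q.m b j) (q.m b' j) g c (near 4 (box (q.m b j)) {B}) →
    q.e j x b' 0 (pm g c s) (fm g c B) = q.e j x b 0 s B
def S_str : Prop := ∀ᶠ q in FP, ∀ t0 j x α ν ρ, q.Good t0 j x α ν ρ → q.Str t0 (j + 1) (q.step j x)
def S_con : Prop := ∀ᶠ q in FP, ∀ (T : Type) [TopologicalSpace T] [FirstCountableTopology T]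
  t0 j (x : T → State) α ν ρ, (∀ τ, q.Good t0 j (x τ) α ν ρ) → q.Cont j x →
  q.Cont (j + 1) (fun τ => q.step j (x τ)) ∧
    ∀ b s, ∀ B ∈ box (q.m b j), Par.ok b (j + 1) → Continuous fun τ => q.e j (x τ) b 0 s B
/-- contraction -/
def S_k0 : Prop := ∀ᶠ q in FP, ∀ t0 j x y α ν ρ ν' ρ' s (δ : ℝ) b z U, q.Good t0 j x α ν ρ →
  q.Good t0 j y α ν' ρ' → 0 ≤ δ → Par.ok b (j + 1) → ‖z‖ ≤ t0 → Pm (q.m b (j + 1)) U →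
  q.Dif t0 j x y s (1, j + 1) q.ref δ →
  q.Dif t0 j x y s b (near 8 (box (q.m b j)) (under q.L U)) δ →
  q.BdJ b (j + 1) z U (fun Θ => q.K0 j x b z s U Θ - q.K0 j y b z s U Θ)
    (δ / 16 + q.C * α * |x.lam s - y.lam s|)
def S_k1 : Prop := ∀ᶠ q in FP, ∀ t0 j x α ν ρ, q.Good t0 j x α ν ρ →
  ∀ b z, Par.ok b (j + 1) → ‖z‖ ≤ t0 →
  (∀ s, ∀ B ∈ box (q.m b (j + 1)), if corner (q.m b (j + 1)) B then
    Real.exp |(q.d' j x b z s B).re| ≤ ρ * (21 / 20) else ‖q.d' j x b z s B‖ ≤ q.ε) ∧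
  ∀ U, Pm (q.m b (j + 1)) U →
    (∀ σ, q.BdJ b (j + 1) z U (((q.step j x).a b z).N U σ)
      (ν / 16 * ρ ^ ncor (q.m b (j + 1)) U)) ∧
    ∀ s, q.BdJ b (j + 1) z U (fun Θ => ((q.step j x).a b z).K s U Θ - q.K0 j x b z s U Θ)
      (q.C * ν * ρ ^ 8)
def S_sid : Prop := ∀ᶠ q in FP, ∀ t0 j x α ν ρ, q.Good t0 j x α ν ρ →
  ∀ b z θ, Par.ok b (j + 1) → ‖z‖ ≤ t0 → Dir (q.n b) θ →
  (∀ s, ∀ B ∈ box (q.m b (j + 1)), q.d' j x b z s B = q.D' j x b z s B) →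
  q.Ez b j (q.WW j x b z) (bg (q.n b) z + cf θ) =
    Complex.exp (-∑ B ∈ box (q.m b j), q.et j x b z 0 B) *
      q.WW (j + 1) (q.step j x) b z (bg (q.n b) z + cf θ)
def S_fin : Prop := ∀ᶠ q in FP, ∀ t0 b x α ν ρ, Par.ok b b.2 → q.Good t0 b.2 x α ν ρ →
  (∀ s, Hz t0 (fun z => q.fin1 x b z s) ∧ (q.fin1 x b 0 s).im = 0 ∧
    ∀ z, ‖z‖ ≤ t0 → ‖q.fin1 x b z s - 1‖ ≤ q.C * α) ∧
  Hz t0 (q.fin2 x b) ∧ (q.fin2 x b 0).im = 0 ∧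
  (∀ z, ‖z‖ ≤ t0 → ‖q.fin2 x b z‖ ≤ q.C * ν * ρ ^ 4 ∧ q.finW x b (-z) = q.finW x b z) ∧
  ∀ s θ, Dir (q.n b) θ → q.κ * ∑ B ∈ box (q.m b b.2), Nf (q.l b.2) (cf θ) (nb (q.l b.2) B) ≤ 1 →
    ‖W1 (box (q.m b b.2)) (fun B => q.Ih b b.2 0 (x.lam s) B (cf θ))
        (fun X => (x.a b 0).K s X (cf θ)) -
      Complex.exp (-(x.lam s / 2 : ℂ) * En (cf θ) (box (q.n b)))‖ ≤ 100 * q.L ^ 2 / q.A * α

/-- the Gaussian flows stay small and are exactly solvable -/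
def S_gau : Prop := ∀ᶠ q in FP, ∀ t0 mu β : ℝ, 0 < t0 → t0 ≤ 1 → 0 ≤ mu → mu ≤ β →
  q.C ^ 3 * β ≤ q.ε → (∀ j, q.Good t0 j (q.gau mu j) (3 * β) 0 3 ∧
    (∀ b z s, ((q.gau mu j).a b z).K s = ((q.gau mu j).a b z).K 0 ∧
      (q.gau mu j).lam s = (q.gau mu j).lam 0) ∧
    ∀ s b, Par.ok b j → q.Dif t0 j (q.gau mu j) zero s b (box (q.m b j)) (q.C ^ 2 * β ^ 2)) ∧
  ∀ b z, Par.ok b b.2 → ‖z‖ ≤ t0 →
    Complex.exp (-∑ B ∈ box (q.m b 0), q.e0 PP (q.gPre mu) b 0 B -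
      ∑ j ∈ range b.2, ∑ B ∈ box (q.m b j), q.et j (q.gau mu j) b z 0 B) *
        q.fin1 (q.gau mu b.2) b z 0 =
    Complex.exp (-(mu / 2 : ℂ) * (z ^ 2 * Rt (q.n b) - En (bg (q.n b) z) (cell q.L (0, 0)) -
      En (bg (q.n b) z) (cell q.L ((q.m b 0 : ℤ) - 1, (q.m b 0 : ℤ) - 1)))) *
      ((1 + mu) ^ (-((q.n b : ℝ) - 1) ^ 2 / 2) : ℝ)

/-- the result of the renormalisation group for one model -/
def Out (q : Par) (o : Mod) : Prop := ∃ a1 a2 K t0 : ℝ, 0 ≤ a2 ∧ a2 < a1 ∧ 0 < t0 ∧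
  ∀ᶠ J : ℕ in atTop, ∀ k, k = 1 ∨ k = 2 → ∃ Z : ℝ, 0 < Z ∧
    Tot q.L (q.n (k, J)) J (W0 o.nu (q.n (k, J))) (bg (q.n (k, J)) 0) = Z ∧
    ∀ t : ℝ, t ≠ 0 → |t| ≤ t0 → ∃ v : ℝ, (if k = 1 then a1 ≤ v ∧ v ≤ 1 else 0 ≤ v ∧ v ≤ a2) ∧
      ‖Tot q.L (q.n (k, J)) J (W0 o.nu (q.n (k, J))) (bg (q.n (k, J)) t) / Z -
        (1 - v * Rt (q.n (k, J)) * t ^ 2 / 2 : ℝ)‖ ≤ K * t ^ 2 + (Rt (q.n (k, J)) + K) ^ 2 * t ^ 4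
def S_out : Prop := ∀ h, IsH h → ∃ (q : Par) (o : Mod), 2 ≤ q.L ∧ o.h = h ∧ 0 < o.η ∧ 0 < o.Bw ∧
  (o.a, o.x1) ∈ rect ∧ Out q o

def Main : Prop := ∃ U : ℝ → ℝ, ContDiff ℝ ((⊤ : ℕ∞) : WithTop ℕ∞) U ∧ (∀ x, U (-x) = U x) ∧
  Tendsto (fun x => U x / x ^ (1 / 4 : ℝ)) atTop atTop ∧ ∃ M0 : ℝ, 0 < M0 ∧ ∀ M, M0 < M →
    ∃ a b : ℝ, a < b ∧
      (∃ᶠ n : ℕ in atTop, Summable (weight U M n) ∧
        Summable (fun m => (m (Fin.last n, Fin.last n) : ℝ) ^ 2 * weight U M n m) ∧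
        (∑' m, (m (Fin.last n, Fin.last n) : ℝ) ^ 2 * weight U M n m) / (∑' m, weight U M n m) /
          Real.log (n + 1) ≤ a) ∧
      ∃ᶠ n : ℕ in atTop, Summable (weight U M n) ∧
        Summable (fun m => (m (Fin.last n, Fin.last n) : ℝ) ^ 2 * weight U M n m) ∧
        b ≤ (∑' m, (m (Fin.last n, Fin.last n) : ℝ) ^ 2 * weight U M n m) / (∑' m, weight U M n m) /
          Real.log (n + 1)

end Pool.Agent.Lib.MP_9cc147_pr.Cx
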