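import Pool.Agent.Lib.MP_9cc147_pr.Cx.A.Tone
import Pool.Agent.Lib.MP_9cc147_pr.Cx.A.Treb
import Pool.Agent.Lib.MP_9cc147_pr.Cx.A.Ttra
import Pool.Agent.Lib.MP_9cc147_pr.Cx.A.Tw12
import Pool.Agent.Lib.MP_9cc147_pr.Cx.B.TpreC
import Pool.Agent.Lib.MP_9cc147_pr.Cx.B.TpreS
import Pool.Agent.Lib.MP_9cc147_pr.Cx.Cp.Tcp
import Pool.Agent.Lib.MP_9cc147_pr.Cx.Du.Tdual
import Pool.Agent.Lib.MP_9cc147_pr.Cx.F.Tgau
import Pool.Agent.Lib.MP_9cc147_pr.Cx.F.Tout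
import Pool.Agent.Lib.MP_9cc147_pr.Cx.F.Tt0
import Pool.Agent.Lib.MP_9cc147_pr.Cx.G.Tcon
import Pool.Agent.Lib.MP_9cc147_pr.Cx.G.Tsid
import Pool.Agent.Lib.MP_9cc147_pr.Cx.H.Th
import Pool.Agent.Lib.MP_9cc147_pr.Cx.H.Tpoi
import Pool.Agent.Lib.MP_9cc147_pr.Cx.I.Tpid
import Pool.Agent.Lib.MP_9cc147_pr.Cx.J.Tgpre
import Pool.Agent.Lib.MP_9cc147_pr.Cx.J.Tinit
import Pool.Agent.Lib.MP_9cc147_pr.Cx.J.TinitC
import Pool.Agent.Lib.MP_9cc147_pr.Cx.K.Tee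
import Pool.Agent.Lib.MP_9cc147_pr.Cx.K.Tk1
import Pool.Agent.Lib.MP_9cc147_pr.Cx.N.Tcnt
import Pool.Agent.Lib.MP_9cc147_pr.Cx.P.TpreB
import Pool.Agent.Lib.MP_9cc147_pr.Cx.Pe.Tpei
import Pool.Agent.Lib.MP_9cc147_pr.Cx.Pe.Tuni
import Pool.Agent.Lib.MP_9cc147_pr.Cx.Q.Tmain
import Pool.Agent.Lib.MP_9cc147_pr.Cx.Rg.Cut
import Pool.Agent.Lib.MP_9cc147_pr.Cx.Rg.Env
import Pool.Agent.Lib.MP_9cc147_pr.Cx.Rg.Fb
import Pool.Agent.Lib.MP_9cc147_pr.Cx.Rg.G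
import Pool.Agent.Lib.MP_9cc147_pr.Cx.Rg.GA
import Pool.Agent.Lib.MP_9cc147_pr.Cx.Rg.Lw
import Pool.Agent.Lib.MP_9cc147_pr.Cx.Rg.Qz
import Pool.Agent.Lib.MP_9cc147_pr.Cx.Rg.Ray
import Pool.Agent.Lib.MP_9cc147_pr.Cx.Rg.Reg
import Pool.Agent.Lib.MP_9cc147_pr.Cx.Rg.Sch
import Pool.Agent.Lib.MP_9cc147_pr.Cx.Rg.Str
import Pool.Agent.Lib.MP_9cc147_pr.Cx.Rg.TfinS
import Pool.Agent.Lib.MP_9cc147_pr.Cx.Rg.Thin0
import Pool.Agent.Lib.MP_9cc147_pr.Cx.Rg.Tk0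
import Pool.Agent.Lib.MP_9cc147_pr.Cx.T.Hol
import Pool.Agent.Lib.MP_9cc147_pr.Cx.T.Tesy
import Pool.Agent.Lib.MP_9cc147_pr.Cx.T.Tstr
import Pool.Agent.Lib.MP_9cc147_pr.Cx.U.Tu
import Pool.Agent.Lib.MP_9cc147_pr.Cx.W.Tw
import Pool.Agent.Lib.MP_9cc147_pr.Cx.Z.Te0
import Pool.Agent.Lib.MP_9cc147_pr.Cx.Z.Tind
import Pool.Agent.Lib.MP_9cc147_pr.Cx.Z.Tzchar
import Pool.Agent.Lib.MP_9cc147_pr.Cx.Z.Tzel
import Pool.Agent.Lib.MP_9cc147_pr.Cx.Z.Tzgau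
import Pool.Agent.Lib.MP_9cc147_pr.Cx.Z.Tziso
import Pool.Agent.Lib.MP_9cc147_pr.Cx.Z.Tzmom

/-! All statements put together. -/

namespace Pool.Agent.Lib.MP_9cc147_pr.Cx

theorem top_main : Main :=
  have hS_h := t_h
  have hS_w := t_w
  have hS_poi := t_poi
  have hS_u := t_u
  have hS_zchar := t_zchar
  have hS_dual := t_dual hS_u hS_zchar
  have hS_zel := t_zel
  have hS_e0 := t_e0
  have hS_t0 := t_t0
  have hS_preC := t_preC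
  have hS_preS := t_preS
  have hS_uni := t_uni
  have hS_pei := t_pei
  have hS_cp := t_cp hS_uni hS_pei
  have hS_ind := t_ind
  have hS_zmom := t_zmom hS_ind hS_zel
  have hS_preB := t_preB hS_u hS_zmom hS_uni hS_pei hS_cp
  have hS_pid := t_pid hS_w hS_u hS_uni
  have hS_ziso := t_ziso
  have hS_gpre := t_gpre hS_zel hS_ziso hS_zmom
  have hS_one := t_one
  have hS_tra := t_tra hS_one
  have hS_reb := t_reb
  have hS_cnt := t_cnt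
  have hS_init := t_init hS_u hS_tra hS_one hS_reb hS_cnt hS_ind hS_zel hS_e0
  have hS_initC := t_initC hS_one
  have hS_ee := t_ee hS_u hS_cnt hS_zel hS_zmom
  have hS_esy := t_esy hS_zel hS_ziso hS_zmom
  have hS_str := t_str hS_tra hS_one hS_zel hS_ziso hS_zmom
  have hS_con := t_con hS_one hS_zel hS_zmom
  have hS_rg_env := t_rg_env hS_u hS_zmom hS_cnt
  have hS_rg_ray := t_rg_ray
  have hS_rg_out := t_rg_out hS_rg_ray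
  have hS_rg_cut := t_rg_cut
  have hS_rg_reg := t_rg_reg hS_rg_out hS_rg_cut
  have hS_rg_lw := t_rg_lw hS_one hS_rg_reg
  have hS_rg_y := t_rg_y
  have hS_rg_qz := t_rg_qz hS_zel
  have hS_rg_str := t_rg_str
  have hS_rg_blo := t_rg_blo hS_rg_qz hS_rg_str hS_zel
  have hS_T_hol := t_T_hol
  have hS_rg_g := t_rg_g hS_zel hS_T_hol
  have hS_rg_sm := t_rg_sm
  have hS_rg_dif := t_rg_dif hS_rg_g hS_rg_sm hS_rg_str
  have hS_rg_sch := t_rg_sch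
  have hS_rg_fb := t_rg_fb hS_rg_sch hS_rg_sm
  have hS_rg_sz := t_rg_sz hS_rg_dif hS_rg_fb hS_rg_qz
  have hS_k1 := t_k1 hS_zel hS_rg_env hS_rg_lw hS_rg_y hS_rg_blo hS_rg_sz hS_rg_str
  have hS_k0 := t_k0 hS_u hS_one hS_cnt hS_zel hS_ziso hS_zmom
  have hS_sid := t_sid hS_one hS_reb hS_ind hS_zel hS_zmom
  have hS_w12 := t_w12
  have hS_fin := t_finS hS_w12 hS_zel hS_zmom hS_rg_env hS_rg_qz
  have hS_zgau := t_zgau hS_u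
  have hS_gau := t_gau hS_w12 hS_tra hS_zel hS_zgau hS_gpre hS_init hS_ee hS_str hS_k0 hS_sid hS_fin
  have hS_out := t_out hS_u hS_zel hS_e0 hS_t0 hS_preC hS_preS hS_cp hS_preB hS_pid hS_gpre hS_init hS_initC hS_ee hS_esy hS_str hS_con hS_k1 hS_k0 hS_sid hS_fin hS_gau
  t_main hS_h hS_w hS_poi hS_u hS_dual hS_out

end Pool.Agent.Lib.MP_9cc147_pr.Cx
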